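import Mathlib
import Pool.Agent.H19.Ord.Frob

/-!
Cartier: in characteristic `p` the part of `F ^ (p - 1) θ F` with exponents divisible by `p` is
`(θ F) ^ p`, `θ = x_i ∂_i`.
-/

set_option autoImplicit false

namespace Pool.Agent.H19.Opp

universe u

open MvPolynomial Pool.Agent.H19.Ord

variable {V : Type} {κ : Type u} [Field κ]

/-- the operator `x_i ∂_i` -/
noncomputable def th (i : V) (F : MvPolynomial V κ) : MvPolynomial V κ := X i * pderiv i F

lemma th_add (i : V) (F H : MvPolynomial V κ) : th i (F + H) = th i F + th i H := by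
  rw [th, th, th, map_add, mul_add]

lemma th_mul (i : V) (F H : MvPolynomial V κ) : th i (F * H) = F * th i H + H * th i F := by
  rw [th, th, th, Derivation.leibniz, smul_eq_mul, smul_eq_mul]
  ring

lemma th_pow (i : V) (F : MvPolynomial V κ) (n : ℕ) :
    th i (F ^ n) = (n : MvPolynomial V κ) * F ^ (n - 1) * th i F := by
  rw [th, th, Derivation.leibniz_pow, smul_eq_mul, nsmul_eq_mul]
  ring

lemma th_sum {ι : Type*} (s : Finset ι) (i : V) (F : ι → MvPolynomial V κ) :
    th i (∑ j ∈ s, F j) = ∑ j ∈ s, th i (F j) := by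
  simp only [th, map_sum, Finset.mul_sum]

lemma th_natCast_mul (i : V) (n : ℕ) (F : MvPolynomial V κ) :
    th i ((n : MvPolynomial V κ) * F) = (n : MvPolynomial V κ) * th i F := by
  rw [th_mul]
  have : th i (n : MvPolynomial V κ) = 0 := by
    rw [th, Derivation.map_natCast, mul_zero]
  rw [this, mul_zero, add_zero]

/-- no exponent is divisible by `p` -/
def PD (p : ℕ) (Q : MvPolynomial V κ) : Prop := ∀ g : V →₀ ℕ, coeff (p • g) Q = 0

lemma PD.add {p : ℕ} {Q Q' : MvPolynomial V κ} (h : PD p Q) (h' : PD p Q') : PD p (Q + Q') := by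
  intro g
  rw [coeff_add, h g, h' g, add_zero]

lemma pd_th (p : ℕ) [CharP κ p] (i : V) (Q : MvPolynomial V κ) : PD p (th i Q) := by
  intro g
  rw [th, coeff_theta]
  simp

variable (p : ℕ) [hp : Fact p.Prime] [CharP κ p]

omit hp in
/-- an identity in a commutative ring -/
lemma cartier_ring {S : Type*} [CommRing S] (F H a b : S) (q : ℕ) :
    (F + H) ^ q * (a + b) = F ^ q * a + H ^ q * b + ∑ j ∈ Finset.range q,
      ((q.choose j : S) * F ^ j * H ^ (q - j) * a +
        (q.choose (j + 1) : S) * F ^ (j + 1) * H ^ (q - (j + 1)) * b) := by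
  have e1 : (F + H) ^ q = F ^ q + ∑ j ∈ Finset.range q, (q.choose j : S) * F ^ j * H ^ (q - j) := by
    rw [add_pow, Finset.sum_range_succ, add_comm]
    congr 1
    · rw [Nat.choose_self, Nat.sub_self]; simp
    · refine Finset.sum_congr rfl fun j _ => ?_
      ring
  have e2 : (F + H) ^ q = H ^ q + ∑ j ∈ Finset.range q,
      (q.choose (j + 1) : S) * F ^ (j + 1) * H ^ (q - (j + 1)) := by
    rw [add_pow, Finset.sum_range_succ', add_comm]
    congr 1
    · simp
    · refine Finset.sum_congr rfl fun j _ => ?_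
      ring
  rw [mul_add, Finset.sum_add_distrib, ← Finset.sum_mul, ← Finset.sum_mul]
  nth_rewrite 1 [e1]
  rw [e2]
  ring

omit hp in
lemma cartier_term {S : Type*} [CommRing S] (F H a b c x y u v : S) (j q : ℕ)
    (hx : c * u = x) (hy : c * v = y) :
    c * (F ^ (j + 1) * (v * H ^ (q - (j + 1)) * b) + H ^ (q - j) * (u * F ^ j * a)) =
      x * F ^ j * H ^ (q - j) * a + y * F ^ (j + 1) * H ^ (q - (j + 1)) * b := by
  rw [← hx, ← hy]
  ring

omit [CharP κ p] in
lemma cartier_add (i : V) (F H : MvPolynomial V κ) :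
    ∃ Q, (F + H) ^ (p - 1) * th i (F + H) = F ^ (p - 1) * th i F + H ^ (p - 1) * th i H + th i Q := by
  have hp0 := hp.out.pos
  obtain ⟨q, hq⟩ : ∃ q, p = q + 1 := ⟨p - 1, by omega⟩
  let c : ℕ → ℕ := fun j => p.choose (j + 1) / p
  have hc : ∀ j, j < q → p * c j = p.choose (j + 1) := by
    intro j hj
    exact Nat.mul_div_cancel' (hp.out.dvd_choose_self (by omega) (by omega))
  have hc1 : ∀ j, j < q → c j * (j + 1) = q.choose j := by
    intro j hj
    have h1 := hc j hj
    have h2 : p.choose (j + 1) * (j + 1) = p * q.choose j := by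
      rw [hq, Nat.add_one_mul_choose_eq]
    apply Nat.eq_of_mul_eq_mul_left hp0
    rw [← h2, ← h1]
    ring
  have hc2 : ∀ j, j < q → c j * (q - j) = q.choose (j + 1) := by
    intro j hj
    have h1 := hc j hj
    have h2 : p.choose (j + 1) * (q - j) = p * q.choose (j + 1) := by
      have h3 := Nat.choose_mul_succ_eq q (j + 1)
      rw [hq]
      have h4 : q + 1 - (j + 1) = q - j := by omega
      rw [h4] at h3
      rw [← h3]
      ring
    apply Nat.eq_of_mul_eq_mul_left hp0
    rw [← h2, ← h1]
    ring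
  refine ⟨∑ j ∈ Finset.range q, (c j : MvPolynomial V κ) * (F ^ (j + 1) * H ^ (q - j)), ?_⟩
  have hpq : p - 1 = q := by omega
  rw [hpq, th_sum, th_add, cartier_ring]
  congr 1
  refine Finset.sum_congr rfl fun j hj => ?_
  rw [Finset.mem_range] at hj
  rw [th_natCast_mul, th_mul, th_pow, th_pow, Nat.add_sub_cancel]
  have h4 : q - j - 1 = q - (j + 1) := by omega
  rw [h4]
  refine (cartier_term F H (th i F) (th i H) _ _ _ _ _ j q ?_ ?_).symm
  · rw [← hc1 j hj, Nat.cast_mul]
  · rw [← hc2 j hj, Nat.cast_mul]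

/-- **Cartier's identity** -/
theorem cartier (i : V) (F : MvPolynomial V κ) : PD p (F ^ (p - 1) * th i F - th i F ^ p) := by
  have hp1 : p - 1 + 1 = p := Nat.succ_pred_eq_of_pos hp.out.pos
  induction F using MvPolynomial.induction_on' with
  | monomial s a =>
    have h1 : th i (monomial s a) = monomial s (a * (s i : κ)) := by
      classical
      ext t
      rw [th, coeff_theta, coeff_monomial, coeff_monomial]
      split_ifs with ht
      · rw [ht]; ring
      · simp
    rw [h1, monomial_pow, monomial_mul, monomial_pow]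
    have h2 : (p - 1) • s + s = p • s := by
      rw [← succ_nsmul, hp1]
    have h3 : a ^ (p - 1) * (a * (s i : κ)) = (a * (s i : κ)) ^ p := by
      rw [← mul_assoc, ← pow_succ, hp1, mul_pow]
      congr 1
      have := map_natCast (frobenius κ p) (s i)
      rw [frobenius_def] at this
      exact this.symm
    rw [h2, h3, sub_self]
    intro g
    simp
  | add F H ihF ihH =>
    obtain ⟨Q, hQ⟩ := cartier_add p i F H
    have h1 : (F + H) ^ (p - 1) * th i (F + H) - th i (F + H) ^ p =
        (F ^ (p - 1) * th i F - th i F ^ p) + (H ^ (p - 1) * th i H - th i H ^ p) + th i Q := by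
      rw [hQ, th_add, add_pow_char]
      ring
    rw [h1]
    exact (ihF.add ihH).add (pd_th p i Q)

end Pool.Agent.H19.Opp
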