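import Mathlib
import Pool.Agent.H19.Ord.BigDefs

/-!
# Definitions: opposite filtrations, and big monodromy on the cohomology
-/

set_option autoImplicit false

namespace Pool.Agent.H19.Opp

universe u

open MvPolynomial Pool.Agent.H19.Ord

variable {V : Type} [Fintype V]

/-- The combinations of the forms `x ^ g / f ^ k` (`Forms`) with the order `k` of the pole in the set
`S`. -/
noncomputable def forms (R : Type u) [CommRing R] (W : V → ℕ) (m : ℕ) (S : Set ℕ) :
    Submodule R ((ℕ × (V →₀ ℕ)) →₀ R) :=
  Submodule.span R {w | ∃ x : Forms W m, x.1.1 ∈ S ∧ w = Finsupp.single x.1 1}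

/-- The exact forms: they are generated by the differentials of `x ^ g / f ^ k` in the direction of
`x_i ∂_i`. -/
noncomputable def exact {R : Type u} [CommRing R] (W : V → ℕ) (m : ℕ) (F : MvPolynomial V R) :
    Submodule R ((ℕ × (V →₀ ℕ)) →₀ R) :=
  Submodule.span R {w | ∃ (k : ℕ) (g : V →₀ ℕ) (i : V), 1 ≤ k ∧ ∑ v, W v * g v = k * m ∧
    (∀ v, v ≠ i → 0 < g v) ∧ w = Finsupp.single (k, g) (g i : R) +
      ∑ a ∈ F.support, Finsupp.single (k + 1, g + a) (coeff a F * (a i : R))}

/-- **The Hodge and the conjugate filtration are opposite**, in characteristic `p`: for each `j` every form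
is the sum of a form with a pole of order at most `j`, of a form with a pole of order greater than `p j`
and of an exact form. -/
def Opposite {R : Type u} [CommRing R] (W : V → ℕ) (m : ℕ) (F : MvPolynomial V R) (p : ℕ) : Prop :=
  ∀ j : ℕ, 1 ≤ j → forms R W m Set.univ ≤
    forms R W m {k | k ≤ j} ⊔ forms R W m {k | p * j < k} ⊔ exact W m F

/-- The part of degree `l` of the Jacobian ideal: combinations of the `x ^ h x_i ∂_i F` of weighted
degree `l m` which are divisible by the product of all variables. -/
noncomputable def jac {R : Type u} [CommRing R] (W : V → ℕ) (m : ℕ) (F : MvPolynomial V R) (l : ℕ) :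
    Submodule R (MvPolynomial V R) :=
  Submodule.span R {Q | ∃ (k : ℕ) (h : V →₀ ℕ) (i : V), 1 ≤ k ∧ l = k + 1 ∧
    ∑ v, W v * h v = k * m ∧ (∀ v, v ≠ i → 0 < h v) ∧ Q = monomial h 1 * (X i * pderiv i F)}

/-- The combinations of the numerators `x ^ g` of the forms in `𝓑` with poles of order `l`. -/
noncomputable def numer (R : Type u) [CommRing R] {W : V → ℕ} {m : ℕ} (𝓑 : Finset (Forms W m)) (l : ℕ) :
    Submodule R (MvPolynomial V R) :=
  Submodule.span R {Q | ∃ x ∈ 𝓑, x.1.1 = l ∧ Q = monomial x.1.2 1}

/-- The numerators of the forms in `𝓑` generate the part with the character `c` of the Jacobian ring, over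
the field of fractions. -/
def Generates {R : Type u} [CommRing R] {G : Type} [AddCommGroup G] (W : V → ℕ) (m : ℕ)
    (F : MvPolynomial V R) (χ : V → G) (c : G) (𝓑 : Finset (Forms W m)) : Prop :=
  (∀ x ∈ 𝓑, gdeg χ x.1.2 = c) ∧ ∀ x : Forms W m, gdeg χ x.1.2 = c →
    ∃ r : R, r ≠ 0 ∧ monomial x.1.2 r ∈ numer R 𝓑 x.1.1 ⊔ jac W m F x.1.1

variable {R : Type u} [CommRing R] {J : Type}

/-- The period functions `π i`, `i < n`, with values in the field `E` are a basis of the solutions with
the character `c`: they are linearly independent, and all functions with the character `c` which satisfy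
Griffiths' relations are linear combinations of them (so `n` is the dimension of the eigenspace `H_c` of
the cohomology); and the part of the Jacobian ring with the character `c` is generated by `n` elements
`𝓑` (Griffiths: its dimension is the sum of the Hodge numbers). -/
structure IsBasis {G : Type} [AddCommGroup G] {E : Type u} [Field E] (W : V → ℕ) (m : ℕ)
    (f : MvPolynomial V R) (D : J → Derivation ℤ R R) (χ : V → G) (c : G) (φ : R →+* E)
    (ε : J → Derivation ℤ E E) {n : ℕ} (π : Fin n → ℕ → (V →₀ ℕ) → E)
    (𝓑 : Finset (Forms W m)) : Prop where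
  period : ∀ i, IsPeriod W m f D φ ε (π i)
  support : ∀ i k g, gdeg χ g ≠ c → π i k g = 0
  indep : LinearIndependent E (fun i => fun x : Forms W m => π i x.1.1 x.1.2)
  complete : ∀ s : ℕ → (V →₀ ℕ) → E, Griffiths W m f φ s → (∀ k g, gdeg χ g ≠ c → s k g = 0) →
    ∃ l : Fin n → E, ∀ x : Forms W m, s x.1.1 x.1.2 = ∑ i, l i * π i x.1.1 x.1.2
  hodge : Generates W m f χ c 𝓑
  card : 𝓑.card = n

/-- The Zariski closure of the set `T` of matrices contains the special linear group, or the
symplectic group of a nondegenerate alternating form, or the orthogonal group of a nondegenerate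
symmetric form. -/
def Large {E : Type u} [Field E] {n : ℕ} (T : Set (Matrix (Fin n) (Fin n) E)) : Prop :=
  InClosure T {g | g.det = 1} ∨
  (∃ A : Matrix (Fin n) (Fin n) E, A.transpose = -A ∧ A.det ≠ 0 ∧
    InClosure T {g | g.transpose * A * g = A}) ∨
  (∃ A : Matrix (Fin n) (Fin n) E, A.transpose = A ∧ A.det ≠ 0 ∧
    InClosure T {g | g.transpose * A * g = A})

/-- **Big monodromy**: for each character `c` there is a basis of the solutions with this
character, in some field with derivations, for which either `H_c` has only one Hodge number or the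
Zariski closure of the monodromy group on the solutions contains the special linear, the symplectic or the
orthogonal group. -/
def BigMonodromy {G : Type} [AddCommGroup G] (W : V → ℕ) (m : ℕ) (f : MvPolynomial V R)
    (D : J → Derivation ℤ R R) (χ : V → G) : Prop :=
  ∀ c : G, (∃ x : Forms W m, gdeg χ x.1.2 = c) →
    ∃ (E : Type u) (_ : Field E) (φ : R →+* E) (ε : J → Derivation ℤ E E) (n : ℕ)
      (π : Fin n → ℕ → (V →₀ ℕ) → E) (𝓑 : Finset (Forms W m)),
      Function.Injective φ ∧ (∀ j a, ε j (φ a) = φ (D j a)) ∧
      IsBasis W m f D χ c φ ε π 𝓑 ∧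
      ((∃ l, ∀ x ∈ 𝓑, x.1.1 = l) ∨ Large (monodromy W m φ ε π))

end Pool.Agent.H19.Opp
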