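import Mathlib
import Pool.Agent.H19.Opp.Defs
import Pool.Agent.H19.Ord.Red

/-!
The filtrations are opposite if and only if there are no functionals which kill both.
-/

set_option autoImplicit false

namespace Pool.Agent.H19.Opp

universe u

open MvPolynomial Pool.Agent.H19.Ord

variable {V : Type} [Fintype V]

/-- the index of a form -/
def IsForm (W : V → ℕ) (m : ℕ) (k : ℕ) (g : V →₀ ℕ) : Prop :=
  1 ≤ k ∧ ∑ v, W v * g v = k * m ∧ ∀ v, 0 < g v

/-- the condition for functionals, with `j` fixed -/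
def OppJ {R κ : Type u} [CommRing R] [Field κ] (W : V → ℕ) (m : ℕ) (f : MvPolynomial V R)
    (φ : R →+* κ) (p j : ℕ) : Prop :=
  ∀ ψ : ℕ → (V →₀ ℕ) → κ, Stokes W m f φ ψ →
    (∀ k g, IsForm W m k g → k ≤ j → ψ k g = 0) → (∀ k g, IsForm W m k g → p * j < k → ψ k g = 0) →
    ∀ k g, IsForm W m k g → ψ k g = 0

section

variable {R κ : Type u} [CommRing R] [Field κ] (W : V → ℕ) (m : ℕ) (f : MvPolynomial V R)
  (φ : R →+* κ)

lemma sum_map_support {M : Type*} [AddCommMonoid M] {S : Type*} [CommRing S] (θ : R →+* S)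
    (F : MvPolynomial V R) (G : (V →₀ ℕ) → S → M) (hG : ∀ a, G a 0 = 0) :
    ∑ a ∈ (map θ F).support, G a (coeff a (map θ F)) = ∑ a ∈ F.support, G a (θ (coeff a F)) := by
  classical
  rw [Finset.sum_subset (support_map_subset θ F)]
  · refine Finset.sum_congr rfl fun a _ => ?_
    rw [coeff_map]
  · intro a _ ha
    rw [notMem_support_iff.1 ha, hG]

lemma stokes_map (ψ : ℕ → (V →₀ ℕ) → κ) :
    Stokes W m (map φ f) (RingHom.id κ) ψ ↔ Stokes W m f φ ψ := by
  have h : ∀ (k : ℕ) (g : V →₀ ℕ) (i : V), ∑ a ∈ (map φ f).support,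
      (RingHom.id κ) (coeff a (map φ f)) * (a i : κ) * ψ (k + 1) (g + a) =
      ∑ a ∈ f.support, φ (coeff a f) * (a i : κ) * ψ (k + 1) (g + a) := fun k g i =>
    sum_map_support φ f (fun a c => c * (a i : κ) * ψ (k + 1) (g + a)) (fun a => by simp)
  constructor
  · intro H k g i hk hg hpos
    have := H k g i hk hg hpos
    rwa [h] at this
  · intro H k g i hk hg hpos
    have := H k g i hk hg hpos
    rwa [h]

/-- the linear functional of a function -/
noncomputable def lin (ψ : ℕ → (V →₀ ℕ) → κ) : ((ℕ × (V →₀ ℕ)) →₀ κ) →ₗ[κ] κ :=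
  Finsupp.linearCombination κ fun x : ℕ × (V →₀ ℕ) => ψ x.1 x.2

lemma lin_single (ψ : ℕ → (V →₀ ℕ) → κ) (x : ℕ × (V →₀ ℕ)) (c : κ) :
    lin ψ (Finsupp.single x c) = c * ψ x.1 x.2 := by
  rw [lin, Finsupp.linearCombination_single, smul_eq_mul]

/-- a functional which kills the three submodules -/
theorem kill (F : MvPolynomial V κ) (ψ : ℕ → (V →₀ ℕ) → κ)
    (hψ : Stokes W m F (RingHom.id κ) ψ) (p j : ℕ)
    (h1 : ∀ k g, IsForm W m k g → k ≤ j → ψ k g = 0)
    (h2 : ∀ k g, IsForm W m k g → p * j < k → ψ k g = 0) :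
    forms κ W m {k | k ≤ j} ⊔ forms κ W m {k | p * j < k} ⊔ exact W m F ≤ LinearMap.ker (lin ψ) := by
  refine sup_le (sup_le ?_ ?_) ?_
  · refine Submodule.span_le.2 ?_
    rintro _ ⟨x, hx, rfl⟩
    simp only [SetLike.mem_coe, LinearMap.mem_ker, lin_single, one_mul]
    exact h1 _ _ x.2 hx
  · refine Submodule.span_le.2 ?_
    rintro _ ⟨x, hx, rfl⟩
    simp only [SetLike.mem_coe, LinearMap.mem_ker, lin_single, one_mul]
    exact h2 _ _ x.2 hx
  · refine Submodule.span_le.2 ?_
    rintro _ ⟨k, g, i, hk, hg, hpos, rfl⟩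
    simp only [SetLike.mem_coe, LinearMap.mem_ker, map_add, map_sum, lin_single]
    exact hψ k g i hk hg hpos

/-- primal form from the functional form, for one form -/
theorem mem_of_oppJ (F : MvPolynomial V κ) (p j : ℕ) (h : OppJ W m F (RingHom.id κ) p j)
    (x : Forms W m) : Finsupp.single x.1 (1 : κ) ∈
      forms κ W m {k | k ≤ j} ⊔ forms κ W m {k | p * j < k} ⊔ exact W m F := by
  by_contra hx
  obtain ⟨l, hl, hle⟩ := Submodule.exists_le_ker_of_notMem hx
  apply hl
  have h1 : ∀ z : ℕ × (V →₀ ℕ), ∀ c : κ, l (Finsupp.single z c) = c * l (Finsupp.single z 1) := by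
    intro z c
    rw [← smul_eq_mul c, ← map_smul, Finsupp.smul_single, smul_eq_mul, mul_one]
  refine h (fun k g => l (Finsupp.single (k, g) 1)) ?_ ?_ ?_ x.1.1 x.1.2 x.2
  · intro k g i hk hg hpos
    have h2 := hle (Submodule.mem_sup_right (Submodule.subset_span
      ⟨k, g, i, hk, hg, hpos, rfl⟩ : _ ∈ exact W m F))
    rw [LinearMap.mem_ker, map_add, map_sum, h1] at h2
    rw [← h2]
    congr 1
    refine Finset.sum_congr rfl fun a _ => ?_
    rw [h1, RingHom.id_apply]
  · intro k g hg hk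
    exact hle (Submodule.mem_sup_left (Submodule.mem_sup_left (Submodule.subset_span
      ⟨⟨(k, g), hg⟩, hk, rfl⟩)))
  · intro k g hg hk
    exact hle (Submodule.mem_sup_left (Submodule.mem_sup_right (Submodule.subset_span
      ⟨⟨(k, g), hg⟩, hk, rfl⟩)))

theorem opposite_of_oppJ (F : MvPolynomial V κ) (p : ℕ)
    (h : ∀ j, 1 ≤ j → OppJ W m F (RingHom.id κ) p j) : Opposite W m F p := by
  intro j hj
  refine Submodule.span_le.2 ?_
  rintro _ ⟨x, -, rfl⟩
  exact mem_of_oppJ W m F p j (h j hj) x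

end

/-- extension of the field -/
theorem OppJ.up {R κ κ' : Type u} [CommRing R] [Field κ] [Field κ'] {W : V → ℕ} {m : ℕ}
    {f : MvPolynomial V R} {φ : R →+* κ} {p j : ℕ} (h : OppJ W m f φ p j) (θ : κ →+* κ') :
    OppJ W m f (θ.comp φ) p j := by
  intro ψ hψ h1 h2 k g hg
  let : Algebra κ κ' := θ.toAlgebra
  have hsm : ∀ (x : κ) (y : κ'), x • y = θ x * y := fun _ _ => rfl
  rw [← Module.forall_dual_apply_eq_zero_iff κ]
  intro l
  have hl : ∀ (a : κ) (y : κ'), l (θ a * y) = a * l y := by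
    intro a y
    rw [← hsm, map_smul, smul_eq_mul]
  refine h (fun k g => l (ψ k g)) ?_ ?_ ?_ k g hg
  · intro k g i hk hg hpos
    have h3 := congrArg l (hψ k g i hk hg hpos)
    rw [map_add, map_sum, map_zero, ← map_natCast θ, hl] at h3
    rw [← h3]
    congr 1
    refine Finset.sum_congr rfl fun a _ => ?_
    rw [RingHom.comp_apply, ← map_natCast θ (a i), ← map_mul, hl]
  · intro k g hg hk
    simp only [h1 k g hg hk, map_zero]
  · intro k g hg hk
    simp only [h2 k g hg hk, map_zero]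

/-- restriction of the field -/
theorem OppJ.down {R κ κ' : Type u} [CommRing R] [Field κ] [Field κ'] {W : V → ℕ} {m : ℕ}
    {f : MvPolynomial V R} {φ : R →+* κ} {p j : ℕ} (θ : κ →+* κ')
    (h : OppJ W m f (θ.comp φ) p j) : OppJ W m f φ p j := by
  intro ψ hψ h1 h2 k g hg
  have h3 := h (fun k g => θ (ψ k g)) (by
    intro k g i hk hg hpos
    have h4 := congrArg θ (hψ k g i hk hg hpos)
    rw [map_add, map_sum, map_zero, map_mul, map_natCast] at h4
    rw [← h4]
    congr 1
    refine Finset.sum_congr rfl fun a _ => ?_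
    rw [RingHom.comp_apply, map_mul, map_mul, map_natCast])
    (fun k g hg hk => by simp only [h1 k g hg hk, map_zero])
    (fun k g hg hk => by simp only [h2 k g hg hk, map_zero]) k g hg
  exact (map_eq_zero θ).1 h3

/-- the same functionals for two polynomials with the same image -/
theorem OppJ.congr {R R' κ : Type u} [CommRing R] [CommRing R'] [Field κ] {W : V → ℕ} {m : ℕ}
    {f : MvPolynomial V R} {φ : R →+* κ} {f' : MvPolynomial V R'} {φ' : R' →+* κ} {p j : ℕ}
    (h : OppJ W m f φ p j) (he : map φ f = map φ' f') : OppJ W m f' φ' p j := by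
  intro ψ hψ
  rw [← stokes_map, ← he, stokes_map] at hψ
  exact h ψ hψ

/-- base change of the three submodules -/
theorem map_mem {R S : Type u} [CommRing R] [CommRing S] (W : V → ℕ) (m : ℕ) (θ : R →+* S)
    (F : MvPolynomial V R) (p j : ℕ) (w : (ℕ × (V →₀ ℕ)) →₀ R)
    (hw : w ∈ forms R W m {k | k ≤ j} ⊔ forms R W m {k | p * j < k} ⊔ exact W m F) :
    w.mapRange θ (map_zero θ) ∈
      forms S W m {k | k ≤ j} ⊔ forms S W m {k | p * j < k} ⊔ exact W m (map θ F) := by
  classical
  let U := forms S W m {k | k ≤ j} ⊔ forms S W m {k | p * j < k} ⊔ exact W m (map θ F)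
  let N : Submodule R ((ℕ × (V →₀ ℕ)) →₀ R) :=
    { carrier := {w | w.mapRange θ (map_zero θ) ∈ U}
      add_mem' := by
        intro a b ha hb
        simp only [Set.mem_setOf_eq] at *
        rw [Finsupp.mapRange_add (map_add θ)]
        exact U.add_mem ha hb
      zero_mem' := by
        simp only [Set.mem_setOf_eq, Finsupp.mapRange_zero]
        exact U.zero_mem
      smul_mem' := by
        intro c a ha
        simp only [Set.mem_setOf_eq] at *
        have : (c • a).mapRange θ (map_zero θ) = θ c • a.mapRange θ (map_zero θ) := by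
          ext x
          simp
        rw [this]
        exact U.smul_mem _ ha }
  suffices h : forms R W m {k | k ≤ j} ⊔ forms R W m {k | p * j < k} ⊔ exact W m F ≤ N from h hw
  refine sup_le (sup_le ?_ ?_) ?_
  · refine Submodule.span_le.2 ?_
    rintro _ ⟨x, hx, rfl⟩
    change Finsupp.mapRange _ _ _ ∈ U
    rw [Finsupp.mapRange_single, map_one]
    exact Submodule.mem_sup_left (Submodule.mem_sup_left (Submodule.subset_span ⟨x, hx, rfl⟩))
  · refine Submodule.span_le.2 ?_
    rintro _ ⟨x, hx, rfl⟩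
    change Finsupp.mapRange _ _ _ ∈ U
    rw [Finsupp.mapRange_single, map_one]
    exact Submodule.mem_sup_left (Submodule.mem_sup_right (Submodule.subset_span ⟨x, hx, rfl⟩))
  · refine Submodule.span_le.2 ?_
    rintro _ ⟨k, g, i, hk, hg, hpos, rfl⟩
    change Finsupp.mapRange _ _ _ ∈ U
    refine Submodule.mem_sup_right (Submodule.subset_span ⟨k, g, i, hk, hg, hpos, ?_⟩)
    rw [sum_map_support θ F (fun a c => Finsupp.single (k + 1, g + a) (c * (a i : S)))
      (fun a => by simp)]
    rw [Finsupp.mapRange_add (map_add θ), Finsupp.mapRange_single, map_natCast]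
    congr 1
    rw [Finsupp.mapRange_finset_sum]
    refine Finset.sum_congr rfl fun a _ => ?_
    rw [Finsupp.mapRange_single, map_mul, map_natCast]

end Pool.Agent.H19.Opp
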