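import Mathlib
import Pool.Agent.H19.Opp.Func

/-!
If the filtrations are opposite, the Hasse-Witt matrix is invertible.
-/

set_option autoImplicit false

namespace Pool.Agent.H19.Opp

universe u

open MvPolynomial Matrix Pool.Agent.H19.Ord

variable {V : Type} [Fintype V] {κ : Type u} [Field κ]

theorem oppJ_of_opposite (W : V → ℕ) (m : ℕ) (F : MvPolynomial V κ) (p : ℕ)
    (h : Opposite W m F p) (j : ℕ) (hj : 1 ≤ j) : OppJ W m F (RingHom.id κ) p j := by
  intro ψ hψ h1 h2 k g hg
  have h3 := (h j hj).trans (kill W m F ψ hψ p j h1 h2)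
    (Submodule.subset_span ⟨⟨(k, g), hg⟩, trivial, rfl⟩ : _ ∈ forms κ W m Set.univ)
  rw [LinearMap.mem_ker, lin_single, one_mul] at h3
  exact h3

/-- the Hasse-Witt matrix -/
theorem det_ne_zero [DecidableEq V] (W : V → ℕ) (hW : ∀ v, 0 < W v) (m : ℕ) (hm : 1 ≤ m)
    (F : MvPolynomial V κ) (hF : ∀ a ∈ F.support, ∑ v, W v * a v = m) (N : ℕ)
    (hN : JacFrom W F N) (p : ℕ) (hp : p.Prime) [CharP κ p] (h : Opposite W m F p) :
    (hasseWitt W m p F).det ≠ 0 := by
  classical
  intro hdet
  obtain ⟨x, hx0, hx⟩ := Matrix.exists_vecMul_eq_zero_iff.2 hdet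
  have hid : map (RingHom.id κ) F = F := MvPolynomial.map_id F
  have hopp := oppJ_of_opposite W m F p h 1 le_rfl
  have hfr : ∀ u, Stokes W m F (RingHom.id κ) (frob (RingHom.id κ) p F u) := fun u =>
    (frob_isPeriod (RingHom.id κ) p hp W m F (fun j : Empty => j.elim) (fun j : Empty => j.elim)
      (fun j => j.elim) u).stokes
  have h1 : ∀ k g, IsForm W m k g →
      ∑ u, x u * frob (RingHom.id κ) p F (expo u) k g = 0 := by
    refine hopp (fun k g => ∑ u, x u * frob (RingHom.id κ) p F (expo u) k g)
      (Stokes.sum Finset.univ _ (fun u => hfr (expo u)) x) ?_ ?_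
    · intro k g hg hk
      have hk1 : k = 1 := le_antisymm hk hg.1
      subst hk1
      have hle : ∀ v, g v ≤ m := by
        intro v
        have h2 : W v * g v ≤ ∑ v, W v * g v :=
          Finset.single_le_sum (f := fun v => W v * g v) (fun _ _ => Nat.zero_le _)
            (Finset.mem_univ v)
        have h3 : g v ≤ W v * g v := Nat.le_mul_of_pos_left _ (hW v)
        have h4 := hg.2.1
        omega
      let w : Exps W m := ⟨fun v => ⟨g v, by have := hle v; omega⟩, fun v => hg.2.2 v, by
        have := hg.2.1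
        rw [one_mul] at this
        exact this⟩
      have hw : g = expo w := by
        ext v
        rfl
      rw [hw]
      have h3 := congrFun hx w
      simp only [Matrix.vecMul, dotProduct, hasseWitt, Matrix.of_apply, Pi.zero_apply] at h3
      simp only [frob, if_pos hp.one_le, hid]
      have h4 := congrArg (fun z => fac κ p 1 * z) h3
      simp only [mul_zero, Finset.mul_sum] at h4
      rw [← h4]
      refine Finset.sum_congr rfl fun u _ => ?_
      ring
    · intro k g _ hk
      refine Finset.sum_eq_zero fun u _ => ?_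
      rw [frob, if_neg (by omega), mul_zero]
  refine hx0 (funext fun w => ?_)
  exact frob_independent W m hm F hF (RingHom.id κ) N (by rwa [hid]) p hp x
    (fun k g hk _ hg hpos => h1 k g ⟨hk, hg, hpos⟩) w

end Pool.Agent.H19.Opp
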