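import Mathlib
import Pool.Agent.H19.Opp.Func
import Pool.Agent.H19.Opp.Car

/-!
In characteristic `p`: a functional on the cohomology which kills the forms with poles of order greater
than `p j` is determined by its values at the Frobenius twists of the generators of the Jacobian ring of
degree at most `j`.
-/

set_option autoImplicit false

namespace Pool.Agent.H19.Opp

universe u

open MvPolynomial Pool.Agent.H19.Ord

variable {V : Type} [Fintype V] {κ : Type u} [Field κ] (W : V → ℕ) (m : ℕ)

/-- generators of the Jacobian ring over a field, in the degrees at most `L` -/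
def Gen {G : Type} [AddCommGroup G] (F : MvPolynomial V κ) (χ : V → G) (c : G)
    (𝓑 : Finset (Forms W m)) (L : ℕ) : Prop :=
  ∀ x : Forms W m, x.1.1 ≤ L → gdeg χ x.1.2 = c →
    monomial x.1.2 (1 : κ) ∈ numer κ 𝓑 x.1.1 ⊔ jac W m F x.1.1

open Classical in
/-- the functional on the numerators of the forms with poles of order `k` -/
noncomputable def Lam (k : ℕ) (ψ : ℕ → (V →₀ ℕ) → κ) : MvPolynomial V κ →ₗ[κ] κ :=
  (MvPolynomial.basisMonomials V κ).constr κ fun s => if IsForm W m k s then ψ k s else 0

open Classical in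
lemma Lam_monomial (k : ℕ) (ψ : ℕ → (V →₀ ℕ) → κ) (s : V →₀ ℕ) (c : κ) :
    Lam W m k ψ (monomial s c) = c * if IsForm W m k s then ψ k s else 0 := by
  have h1 : monomial s c = c • (MvPolynomial.basisMonomials V κ s) := by
    rw [MvPolynomial.coe_basisMonomials, smul_monomial, smul_eq_mul, mul_one]
  rw [h1, map_smul, Lam, Module.Basis.constr_basis, smul_eq_mul]

lemma Lam_form (k : ℕ) (ψ : ℕ → (V →₀ ℕ) → κ) (s : V →₀ ℕ) (c : κ) (hs : IsForm W m k s) :
    Lam W m k ψ (monomial s c) = c * ψ k s := by
  rw [Lam_monomial, if_pos hs]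

lemma Lam_zero (k : ℕ) (ψ : ℕ → (V →₀ ℕ) → κ) (Q : MvPolynomial V κ)
    (h : ∀ s, IsForm W m k s → coeff s Q ≠ 0 → ψ k s = 0) : Lam W m k ψ Q = 0 := by
  classical
  rw [Q.as_sum, map_sum]
  refine Finset.sum_eq_zero fun s hs => ?_
  rw [Lam_monomial]
  split_ifs with h1
  · rw [h s h1 (mem_support_iff.1 hs), mul_zero]
  · rw [mul_zero]

lemma IsForm.add {W : V → ℕ} {m k : ℕ} {g a : V →₀ ℕ} (hg : IsForm W m k g)
    (ha : ∑ v, W v * a v = m) : IsForm W m (k + 1) (g + a) :=
  ⟨by omega, sum_pos_of_support g a k ha hg.2.1, fun v => by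
    have := hg.2.2 v
    rw [Finsupp.add_apply]
    omega⟩

variable (F : MvPolynomial V κ) (hF : ∀ a ∈ F.support, ∑ v, W v * a v = m)
  (ψ : ℕ → (V →₀ ℕ) → κ) (hψ : Stokes W m F (RingHom.id κ) ψ)

include hF hψ in
/-- Euler's relation -/
lemma euler (hm : (m : κ) ≠ 0) (k : ℕ) (g : V →₀ ℕ) (hg : IsForm W m k g) :
    (k : κ) * ψ k g + ∑ a ∈ F.support, coeff a F * ψ (k + 1) (g + a) = 0 := by
  have h1 : ∑ i, (W i : κ) * ((g i : κ) * ψ k g +
      ∑ a ∈ F.support, (RingHom.id κ) (coeff a F) * (a i : κ) * ψ (k + 1) (g + a)) = 0 :=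
    Finset.sum_eq_zero fun i _ => by
      rw [hψ k g i hg.1 hg.2.1 (fun v _ => hg.2.2 v), mul_zero]
  have h2 : ∑ i, (W i : κ) * (g i : κ) = (k : κ) * m := by
    have := congrArg (Nat.cast : ℕ → κ) hg.2.1
    push_cast at this
    exact this
  have h3 : ∀ a ∈ F.support, ∑ i, (W i : κ) * (a i : κ) = m := by
    intro a ha
    have := congrArg (Nat.cast : ℕ → κ) (hF a ha)
    push_cast at this
    exact this
  simp only [mul_add, Finset.sum_add_distrib, Finset.mul_sum, RingHom.id_apply] at h1
  rw [Finset.sum_comm (s := (Finset.univ : Finset V)) (t := F.support)] at h1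
  have h4 : ∑ i, (W i : κ) * ((g i : κ) * ψ k g) = (m : κ) * ((k : κ) * ψ k g) := by
    rw [← mul_assoc, mul_comm (m : κ), ← h2, Finset.sum_mul]
    refine Finset.sum_congr rfl fun i _ => ?_
    ring
  have h5 : ∑ a ∈ F.support, ∑ i, (W i : κ) * (coeff a F * (a i : κ) * ψ (k + 1) (g + a)) =
      (m : κ) * ∑ a ∈ F.support, coeff a F * ψ (k + 1) (g + a) := by
    rw [Finset.mul_sum]
    refine Finset.sum_congr rfl fun a ha => ?_
    rw [← h3 a ha, Finset.sum_mul]
    refine Finset.sum_congr rfl fun i _ => ?_
    ring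
  rw [h4, h5, ← mul_add] at h1
  exact (mul_eq_zero.1 h1).resolve_left hm

include hF hψ in
/-- the powers of `F` -/
lemma chain (hm : (m : κ) ≠ 0) (K : ℕ) (hK : (K : κ) = 0) (r : ℕ) :
    ∀ (k : ℕ) (g : V →₀ ℕ), IsForm W m k g → k + r = K →
      (r.factorial : κ) * ψ k g = Lam W m K ψ (monomial g 1 * F ^ r) := by
  induction r with
  | zero =>
    intro k g hg hk
    have hk' : k = K := by omega
    subst hk'
    rw [pow_zero, mul_one, Lam_form W m k ψ g 1 hg]
    simp
  | succ r ih =>
    intro k g hg hk
    have h1 := euler W m F hF ψ hψ hm k g hg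
    have h2 : (k : κ) = -((r : κ) + 1) := by
      have : (k : κ) + ((r : κ) + 1) = 0 := by
        rw [← hK, ← hk]
        push_cast
        ring
      exact eq_neg_of_add_eq_zero_left this
    rw [h2] at h1
    have h3 : ((r : κ) + 1) * ψ k g = ∑ a ∈ F.support, coeff a F * ψ (k + 1) (g + a) := by
      linear_combination (-1 : κ) * h1
    rw [Nat.factorial_succ]
    push_cast
    rw [mul_comm ((r : κ) + 1), mul_assoc, h3, Finset.mul_sum]
    have h5 : monomial g (1 : κ) * F = ∑ a ∈ F.support, coeff a F • monomial (g + a) (1 : κ) := by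
      conv_lhs => rw [F.as_sum]
      rw [Finset.mul_sum]
      refine Finset.sum_congr rfl fun a _ => ?_
      rw [monomial_mul, one_mul, smul_monomial, smul_eq_mul, mul_one]
    have h4 : monomial g 1 * F ^ (r + 1) =
        ∑ a ∈ F.support, coeff a F • (monomial (g + a) (1 : κ) * F ^ r) := by
      rw [pow_succ', ← mul_assoc, h5, Finset.sum_mul]
      refine Finset.sum_congr rfl fun a _ => ?_
      rw [smul_mul_assoc]
    rw [h4, map_sum]
    refine Finset.sum_congr rfl fun a ha => ?_
    rw [map_smul, smul_eq_mul, ← ih (k + 1) (g + a) (hg.add (hF a ha)) (by omega)]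
    ring

variable (p : ℕ) [hp : Fact p.Prime] [CharP κ p]

lemma isForm_smul {k : ℕ} {g : V →₀ ℕ} (hg : IsForm W m k g) (q : ℕ) (hq : 0 < q) :
    IsForm W m (q * k) (q • g) := by
  refine ⟨?_, ?_, ?_⟩
  · have := hg.1
    exact Nat.mul_pos hq this
  · rw [mul_assoc, ← hg.2.1, Finset.mul_sum]
    refine Finset.sum_congr rfl fun v _ => ?_
    rw [Finsupp.smul_apply, smul_eq_mul]
    ring
  · intro v
    rw [Finsupp.smul_apply, smul_eq_mul]
    exact Nat.mul_pos hq (hg.2.2 v)

include hF hψ hp in
lemma twisted (hm : (m : κ) ≠ 0) (k : ℕ) (hk : 1 ≤ k) (h : V →₀ ℕ) (i : V)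
    (hh : ∑ v, W v * h v = k * m) (hpos : ∀ v, v ≠ i → 0 < h v) :
    Lam W m (p * (k + 1)) ψ (monomial (p • h) 1 * (F ^ (p - 1) * th i F)) = 0 := by
  classical
  have hp1 : p - 1 + 1 = p := Nat.succ_pred_eq_of_pos hp.out.pos
  have hsum : ∑ v, W v * (p • h) v = p * k * m := by
    rw [mul_assoc, ← hh, Finset.mul_sum]
    refine Finset.sum_congr rfl fun v _ => ?_
    rw [Finsupp.smul_apply, smul_eq_mul]
    ring
  have h1 := hψ (p * k) (p • h) i (Nat.mul_pos hp.out.pos hk) hsum (fun v hv => by
    rw [Finsupp.smul_apply, smul_eq_mul]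
    exact Nat.mul_pos hp.out.pos (hpos v hv))
  have h2 : (((p • h) i : ℕ) : κ) = 0 := by
    rw [Finsupp.smul_apply, smul_eq_mul]
    simp
  rw [h2, zero_mul, zero_add] at h1
  have hth : th i F = ∑ a ∈ F.support, monomial a (coeff a F * (a i : κ)) := by
    ext t
    rw [th, coeff_theta, coeff_sum]
    simp only [coeff_monomial]
    rw [Finset.sum_ite_eq']
    split_ifs with ht
    · ring
    · rw [notMem_support_iff.1 ht, mul_zero]
  have h3 : monomial (p • h) (1 : κ) * (F ^ (p - 1) * th i F) =
      ∑ a ∈ F.support, (coeff a F * (a i : κ)) • (monomial (p • h + a) (1 : κ) * F ^ (p - 1)) := by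
    rw [hth, Finset.mul_sum, Finset.mul_sum]
    refine Finset.sum_congr rfl fun a _ => ?_
    rw [mul_comm (F ^ (p - 1)), ← mul_assoc, monomial_mul, one_mul, ← smul_mul_assoc,
      smul_monomial, smul_eq_mul, mul_one]
  rw [h3, map_sum]
  have h4 := congrArg (fun z => ((p - 1).factorial : κ) * z) h1
  simp only [mul_zero, Finset.mul_sum, RingHom.id_apply] at h4
  rw [← h4]
  refine Finset.sum_congr rfl fun a ha => ?_
  rw [map_smul, smul_eq_mul]
  by_cases hai : a i = 0
  · rw [hai]
    simp
  · have hform : IsForm W m (p * k + 1) (p • h + a) := by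
      refine ⟨by omega, sum_pos_of_support (p • h) a (p * k) (hF a ha) hsum, fun v => ?_⟩
      rw [Finsupp.add_apply, Finsupp.smul_apply, smul_eq_mul]
      by_cases hv : v = i
      · rw [hv]; omega
      · have := Nat.mul_pos hp.out.pos (hpos v hv)
        omega
    rw [← chain W m F hF ψ hψ hm (p * (k + 1)) (by simp) (p - 1) (p * k + 1) (p • h + a) hform
      (by rw [mul_add, mul_one]; omega)]
    ring

include hF hψ hp in
/-- **The functionals which kill the forms with poles of large order.** -/
theorem raise {G : Type} [AddCommGroup G] (χ : V → G) (c : G) (hm : (m : κ) ≠ 0)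
    (hsupp : ∀ k g, gdeg χ g ≠ c → ψ k g = 0)
    (hpc : ∀ u : V →₀ ℕ, gdeg χ (p • u) = c → gdeg χ u = c) (j : ℕ)
    (htop : ∀ k g, IsForm W m k g → p * j < k → ψ k g = 0) (𝓑 : Finset (Forms W m))
    (hgen : Gen W m F χ c 𝓑 j)
    (h0 : ∀ x ∈ 𝓑, x.1.1 ≤ j → ψ (p * x.1.1) (p • x.1.2) = 0) :
    ∀ k g, IsForm W m k g → ψ k g = 0 := by
  classical
  have hp0 := hp.out.pos
  have key : ∀ d k g, IsForm W m k g → p * j < k + d → ψ k g = 0 := by
    intro d
    induction d with
    | zero => intro k g hg hk; exact htop k g hg hk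
    | succ d ih =>
      intro k g hg hk
      have hnext : ∀ s, IsForm W m (k + 1) s → ψ (k + 1) s = 0 := fun s hs =>
        ih (k + 1) s hs (by omega)
      by_cases hpk : p ∣ k
      swap
      · have h1 := euler W m F hF ψ hψ hm k g hg
        rw [Finset.sum_eq_zero fun a ha => by rw [hnext _ (hg.add (hF a ha)), mul_zero],
          add_zero] at h1
        refine (mul_eq_zero.1 h1).resolve_left fun h2 => hpk ?_
        exact (CharP.cast_eq_zero_iff κ p k).1 h2
      have hB : ∀ s, IsForm W m k s → (∃ i, ¬ p ∣ s i) → ψ k s = 0 := by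
        rintro s hs ⟨i, hi⟩
        have h1 := hψ k s i hs.1 hs.2.1 (fun v _ => hs.2.2 v)
        rw [Finset.sum_eq_zero fun a ha => by rw [hnext _ (hs.add (hF a ha)), mul_zero],
          add_zero] at h1
        refine (mul_eq_zero.1 h1).resolve_left fun h2 => hi ?_
        exact (CharP.cast_eq_zero_iff κ p _).1 h2
      by_cases hgi : ∃ i, ¬ p ∣ g i
      · exact hB g hg hgi
      push Not at hgi
      obtain ⟨l, rfl⟩ := hpk
      -- the exponents are divisible by `p`
      have hdiv : ∀ s : V →₀ ℕ, (∀ i, p ∣ s i) → ∃ u : V →₀ ℕ, s = p • u := by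
        intro s hs
        refine ⟨Finsupp.equivFunOnFinite.symm fun v => s v / p, ?_⟩
        ext v
        rw [Finsupp.smul_apply, smul_eq_mul]
        exact (Nat.mul_div_cancel' (hs v)).symm
      obtain ⟨u, rfl⟩ := hdiv g hgi
      by_cases hc : gdeg χ (p • u) = c
      swap
      · exact hsupp _ _ hc
      have hu : IsForm W m l u := by
        refine ⟨?_, ?_, ?_⟩
        · rcases Nat.eq_zero_or_pos l with h | h
          · have := hg.1
            rw [h] at this
            omega
          · exact h
        · have h1 := hg.2.1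
          have h2 : ∑ v, W v * (p • u) v = p * ∑ v, W v * u v := by
            rw [Finset.mul_sum]
            refine Finset.sum_congr rfl fun v _ => ?_
            rw [Finsupp.smul_apply, smul_eq_mul]
            ring
          rw [h2, mul_assoc] at h1
          exact Nat.eq_of_mul_eq_mul_left hp0 h1
        · intro v
          have := hg.2.2 v
          rw [Finsupp.smul_apply, smul_eq_mul] at this
          exact Nat.pos_of_mul_pos_left this
      by_cases hlj : l ≤ j
      swap
      · exact htop _ _ hg (Nat.mul_lt_mul_of_pos_left (by omega) hp0)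
      let N : Submodule κ (MvPolynomial V κ) :=
        { carrier := {Q | Lam W m (p * l) ψ (Q ^ p) = 0}
          add_mem' := by
            intro a b ha hb
            simp only [Set.mem_ofPred_eq] at *
            rw [add_pow_char, map_add, ha, hb, add_zero]
          zero_mem' := by
            simp only [Set.mem_ofPred_eq]
            rw [zero_pow hp0.ne', map_zero]
          smul_mem' := by
            intro b a ha
            simp only [Set.mem_ofPred_eq] at *
            rw [smul_pow, map_smul, ha, smul_zero] }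
      have hle : numer κ 𝓑 l ⊔ jac W m F l ≤ N := by
        refine sup_le (Submodule.span_le.2 ?_) (Submodule.span_le.2 ?_)
        · rintro _ ⟨x, hx, hxl, rfl⟩
          change Lam W m (p * l) ψ (monomial x.1.2 1 ^ p) = 0
          have hxf : IsForm W m x.1.1 x.1.2 := x.2
          rw [monomial_pow, one_pow, Lam_form _ _ _ _ _ _ (by
            rw [← hxl]; exact isForm_smul W m hxf p hp0), one_mul, ← hxl]
          exact h0 x hx (by omega)
        · rintro _ ⟨k, h, i, hk, hl, hh, hpos, rfl⟩
          change Lam W m (p * l) ψ ((monomial h 1 * th i F) ^ p) = 0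
          have h1 := twisted W m F hF ψ hψ p hm k hk h i hh hpos
          have h2 : Lam W m (p * (k + 1)) ψ
              (monomial (p • h) 1 * (F ^ (p - 1) * th i F - th i F ^ p)) = 0 := by
            refine Lam_zero W m _ ψ _ fun s hs hcoef => ?_
            rw [← hl] at hs ⊢
            by_cases hsp : ∃ v, ¬ p ∣ s v
            · exact hB s hs hsp
            · push Not at hsp
              obtain ⟨t, rfl⟩ := hdiv s hsp
              exfalso
              apply hcoef
              rw [coeff_monomial_mul']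
              split_ifs with hle
              · have h3 : p • t - p • h = p • (t - h) := by
                  ext v
                  simp only [Finsupp.tsub_apply, Finsupp.smul_apply, smul_eq_mul, Nat.mul_sub]
                rw [h3, cartier p i F (t - h), mul_zero]
              · rfl
          rw [mul_sub, map_sub, h1, zero_sub, neg_eq_zero] at h2
          rw [mul_pow, monomial_pow, one_pow, hl]
          exact h2
      have h1 := hle (hgen ⟨(l, u), hu⟩ hlj (hpc u hc))
      change Lam W m (p * l) ψ (monomial u 1 ^ p) = 0 at h1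
      rw [monomial_pow, one_pow, Lam_form _ _ _ _ _ _ hg, one_mul] at h1
      exact h1
  intro k g hg
  exact key (p * j + 1) k g hg (by omega)

end Pool.Agent.H19.Opp
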