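import Mathlib
import Pool.Agent.H19.Opp.Raise

/-!
Reduction of the order of the poles, with generators of the Jacobian ring.
-/

set_option autoImplicit false

namespace Pool.Agent.H19.Opp

universe u

open MvPolynomial Pool.Agent.H19.Ord

section low

variable {V : Type} [Fintype V] {κ : Type u} [Field κ] (W : V → ℕ) (m : ℕ)
  (F : MvPolynomial V κ) (hF : ∀ a ∈ F.support, ∑ v, W v * a v = m)
  (ψ : ℕ → (V →₀ ℕ) → κ) (hψ : Stokes W m F (RingHom.id κ) ψ)

include hF hψ in
/-- the functional on the Jacobian ideal -/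
lemma lam_jac (k : ℕ) (hk : 1 ≤ k) (h : V →₀ ℕ) (i : V) (hh : ∑ v, W v * h v = k * m)
    (hpos : ∀ v, v ≠ i → 0 < h v) :
    Lam W m (k + 1) ψ (monomial h 1 * (X i * pderiv i F)) = -((h i : κ) * ψ k h) := by
  classical
  have hth : X i * pderiv i F = ∑ a ∈ F.support, monomial a (coeff a F * (a i : κ)) := by
    ext t
    rw [coeff_theta, coeff_sum]
    simp only [coeff_monomial]
    rw [Finset.sum_ite_eq']
    split_ifs with ht
    · ring
    · rw [notMem_support_iff.1 ht, mul_zero]
  have h1 := hψ k h i hk hh hpos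
  rw [eq_neg_iff_add_eq_zero, ← h1, add_comm]
  congr 1
  rw [hth, Finset.mul_sum, map_sum]
  refine Finset.sum_congr rfl fun a ha => ?_
  rw [monomial_mul, one_mul, RingHom.id_apply]
  by_cases hai : a i = 0
  · rw [hai]
    simp
  · rw [Lam_form]
    refine ⟨by omega, sum_pos_of_support h a k (hF a ha) hh, fun v => ?_⟩
    rw [Finsupp.add_apply]
    by_cases hv : v = i
    · rw [hv]; omega
    · have := hpos v hv
      omega

include hF hψ in
/-- a functional which kills generators of the Jacobian ring -/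
theorem lower {G : Type} [AddCommGroup G] (χ : V → G) (c : G)
    (hsupp : ∀ k g, gdeg χ g ≠ c → ψ k g = 0) (𝓑 : Finset (Forms W m)) (L : ℕ)
    (hgen : Gen W m F χ c 𝓑 L) (h0 : ∀ x ∈ 𝓑, x.1.1 ≤ L → ψ x.1.1 x.1.2 = 0) :
    ∀ k g, IsForm W m k g → k ≤ L → ψ k g = 0 := by
  intro k
  induction k using Nat.strong_induction_on with
  | _ k ih =>
    intro g hg hkL
    by_cases hc : gdeg χ g = c
    swap
    · exact hsupp k g hc
    have hle : numer κ 𝓑 k ⊔ jac W m F k ≤ LinearMap.ker (Lam W m k ψ) := by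
      refine sup_le (Submodule.span_le.2 ?_) (Submodule.span_le.2 ?_)
      · rintro _ ⟨x, hx, rfl, rfl⟩
        have hxf : IsForm W m x.1.1 x.1.2 := x.2
        simp only [SetLike.mem_coe, LinearMap.mem_ker]
        rw [Lam_form _ _ _ _ _ _ hxf, one_mul]
        exact h0 x hx hkL
      · rintro _ ⟨k', h, i, hk', rfl, hh, hpos, rfl⟩
        simp only [SetLike.mem_coe, LinearMap.mem_ker]
        rw [lam_jac W m F hF ψ hψ k' hk' h i hh hpos, neg_eq_zero]
        by_cases hhi : h i = 0
        · rw [hhi]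
          simp
        · rw [ih k' (by omega) h ⟨hk', hh, fun v => ?_⟩ (by omega), mul_zero]
          by_cases hv : v = i
          · rw [hv]; omega
          · exact hpos v hv
    have h1 := hle (hgen ⟨(k, g), hg⟩ hkL hc)
    rw [LinearMap.mem_ker, Lam_form _ _ _ _ _ _ hg, one_mul] at h1
    exact h1

end low

/-- base change of the generators -/
theorem gen_map {V : Type} [Fintype V] {R κ : Type u} [CommRing R] [Field κ] (W : V → ℕ) (m : ℕ)
    (φ : R →+* κ) (f : MvPolynomial V R) (𝓑 : Finset (Forms W m)) (l : ℕ) (g : V →₀ ℕ) (r : R)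
    (hr : φ r ≠ 0) (h : monomial g r ∈ numer R 𝓑 l ⊔ jac W m f l) :
    monomial g (1 : κ) ∈ numer κ 𝓑 l ⊔ jac W m (map φ f) l := by
  let U := numer κ 𝓑 l ⊔ jac W m (map φ f) l
  let N : Submodule R (MvPolynomial V R) :=
    { carrier := {Q | map φ Q ∈ U}
      add_mem' := by
        intro a b ha hb
        simp only [Set.mem_ofPred_eq] at *
        rw [map_add]
        exact U.add_mem ha hb
      zero_mem' := by
        simp only [Set.mem_ofPred_eq, map_zero]
        exact U.zero_mem
      smul_mem' := by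
        intro c a ha
        simp only [Set.mem_ofPred_eq] at *
        rw [smul_eq_C_mul, map_mul, map_C, ← smul_eq_C_mul]
        exact U.smul_mem _ ha }
  have hle : numer R 𝓑 l ⊔ jac W m f l ≤ N := by
    refine sup_le (Submodule.span_le.2 ?_) (Submodule.span_le.2 ?_)
    · rintro _ ⟨x, hx, hxl, rfl⟩
      change map φ _ ∈ U
      rw [map_monomial, map_one]
      exact Submodule.mem_sup_left (Submodule.subset_span ⟨x, hx, hxl, rfl⟩)
    · rintro _ ⟨k, h, i, hk, hl, hh, hpos, rfl⟩
      change map φ _ ∈ U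
      rw [map_mul, map_mul, map_monomial, map_one, map_X, ← pderiv_map]
      exact Submodule.mem_sup_right (Submodule.subset_span ⟨k, h, i, hk, hl, hh, hpos, rfl⟩)
  have h1 : map φ (monomial g r) ∈ U := hle h
  rw [map_monomial] at h1
  have h2 := U.smul_mem (φ r)⁻¹ h1
  rwa [smul_monomial, smul_eq_mul, inv_mul_cancel₀ hr] at h2

end Pool.Agent.H19.Opp
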