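import Mathlib
import Pool.Agent.H19.Ord.Const
import Pool.Agent.H19.Ord.Tens
import Pool.Agent.H19.Ord.BigMove
import Pool.Agent.H19.Opp.Low

/-!
Big monodromy: a stable space of functionals does not meet the functionals which kill the forms with
poles of order at most `j`.
-/

set_option autoImplicit false

namespace Pool.Agent.H19.Opp

universe u

open MvPolynomial Matrix Pool.Agent.H19.Ord

section update

variable {R Ω : Type u} [CommRing R] [Field Ω] {I X : Type} [Fintype I] [DecidableEq I]

lemma evT_update (φ : R →+* Ω) (s : I → X → Ω) (u : I) (q : X → Ω) (Q : (I → X) →₀ R) :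
    evT φ (Function.update s u q) Q =
      Q.sum fun x r => φ r * (q (x u) * ∏ v ∈ Finset.univ.erase u, s v (x v)) := by
  rw [evT]
  refine Finsupp.sum_congr fun x _ => ?_
  congr 1
  rw [← Finset.mul_prod_erase Finset.univ _ (Finset.mem_univ u), Function.update_self]
  congr 1
  refine Finset.prod_congr rfl fun v hv => ?_
  rw [Function.update_of_ne (Finset.ne_of_mem_erase hv)]

lemma evT_update_sum {K : Type*} (t : Finset K) (φ : R →+* Ω) (s : I → X → Ω) (u : I) (c : K → Ω)
    (q : K → X → Ω) (Q : (I → X) →₀ R) :
    evT φ (Function.update s u (fun x => ∑ k ∈ t, c k * q k x)) Q =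
      ∑ k ∈ t, c k * evT φ (Function.update s u (q k)) Q := by
  simp only [evT_update, Finsupp.sum, Finset.mul_sum, Finset.sum_mul]
  rw [Finset.sum_comm]
  refine Finset.sum_congr rfl fun k _ => Finset.sum_congr rfl fun x _ => ?_
  ring

lemma evT_update_zero (φ : R →+* Ω) (s : I → X → Ω) (u : I) (Q : (I → X) →₀ R) :
    evT φ (Function.update s u (fun _ => 0)) Q = 0 := by
  rw [evT_update]
  simp

end update

section der

variable {V : Type} [Fintype V] {R : Type u} [CommRing R] {J : Type} {W : V → ℕ} {m : ℕ}
  {I : Type} [Fintype I] [DecidableEq I]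

/-- the derivative of a multilinear expression -/
lemma exists_nabla' (f : MvPolynomial V R) (hf : ∀ a ∈ f.support, ∑ v, W v * a v = m)
    (D : J → Derivation ℤ R R) (j : J) (Q : (I → Forms W m) →₀ R) :
    ∃ Q' : (I → Forms W m) →₀ R, ∀ (F : Type u) [Field F] (φ : R →+* F)
      (δ : J → Derivation ℤ F F), (∀ j a, δ j (φ a) = φ (D j a)) →
      ∀ s r : I → Forms W m → F, (∀ u x, δ j (s u x) =
        ∑ a ∈ f.support.attach, φ (D j (coeff a.1 f)) * s u (next f hf x a) + r u x) →
        δ j (evT φ s Q) = evT φ s Q' + ∑ u, evT φ (Function.update s u (r u)) Q := by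
  induction Q using Finsupp.induction_linear with
  | zero =>
    refine ⟨0, ?_⟩
    intro F _ φ δ _ s r _
    simp [evT_zero]
  | add f g hf hg =>
    obtain ⟨f', hf'⟩ := hf
    obtain ⟨g', hg'⟩ := hg
    refine ⟨f' + g', ?_⟩
    intro F _ φ δ hδ s r hs
    rw [evT_add, map_add, hf' F φ δ hδ s r hs, hg' F φ δ hδ s r hs, evT_add]
    simp only [evT_add, Finset.sum_add_distrib]
    ring
  | single x r₀ =>
    refine ⟨Finsupp.single x (D j r₀) + ∑ u, ∑ a ∈ f.support.attach,
      Finsupp.single (Function.update x u (next f hf (x u) a)) (r₀ * D j (coeff a.1 f)), ?_⟩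
    intro F _ φ δ hδ s r hs
    rw [evT_single, Derivation.leibniz, hδ, evT_add, evT_single, smul_eq_mul, smul_eq_mul, der_prod,
      evT_sum]
    have h1 : ∀ u, evT φ s (∑ a ∈ f.support.attach,
        Finsupp.single (Function.update x u (next f hf (x u) a)) (r₀ * D j (coeff a.1 f))) =
        φ r₀ * ((∏ v ∈ Finset.univ.erase u, s v (x v)) *
          ∑ a ∈ f.support.attach, φ (D j (coeff a.1 f)) * s u (next f hf (x u) a)) := by
      intro u
      rw [evT_sum, Finset.mul_sum, Finset.mul_sum]
      refine Finset.sum_congr rfl fun a _ => ?_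
      rw [evT_single, map_mul, ← Finset.mul_prod_erase Finset.univ _ (Finset.mem_univ u)]
      have h1 : ∏ v ∈ Finset.univ.erase u, s v (Function.update x u (next f hf (x u) a) v) =
          ∏ v ∈ Finset.univ.erase u, s v (x v) := by
        refine Finset.prod_congr rfl fun v hv => ?_
        rw [Function.update_of_ne (Finset.ne_of_mem_erase hv)]
      rw [h1, Function.update_self]
      ring
    have h2 : ∀ u, evT φ (Function.update s u (r u)) (Finsupp.single x r₀) =
        φ r₀ * ((∏ v ∈ Finset.univ.erase u, s v (x v)) * r u (x u)) := by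
      intro u
      rw [evT_update, Finsupp.sum_single_index]
      · ring
      · simp
    simp only [h1, h2, hs, mul_add, Finset.sum_add_distrib, Finset.mul_sum]
    ring

end der

/-- **Big monodromy and stable spaces of functionals.** -/
theorem mono2 {V : Type} [Fintype V] {R : Type u} [CommRing R] [CharZero R] {J : Type}
    {G : Type} [AddCommGroup G] (W : V → ℕ) (m : ℕ) (f : MvPolynomial V R)
    (hf : ∀ a ∈ f.support, ∑ v, W v * a v = m)
    (D : J → Derivation ℤ R R) (χ : V → G) (c : G)
    {E : Type u} [Field E] (φE : R →+* E) (ε : J → Derivation ℤ E E) {n : ℕ}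
    (π : Fin n → ℕ → (V →₀ ℕ) → E) (𝓑 : Finset (Forms W m)) (hφE : Function.Injective φE)
    (hcompE : ∀ j a, ε j (φE a) = φE (D j a)) (hsol : IsBasis W m f D χ c φE ε π 𝓑)
    (hcase : (∃ l, ∀ x ∈ 𝓑, x.1.1 = l) ∨ Large (monodromy W m φE ε π))
    {F : Type u} [Field F] (φF : R →+* F) (δ : J → Derivation ℤ F F)
    (hφF : Function.Injective φF) (hcompF : ∀ j a, δ j (φF a) = φF (D j a))
    (t : ℕ) (ψ : Fin t → ℕ → (V →₀ ℕ) → F) (M : J → Fin t → Fin t → F)
    (hst : ∀ u, Stokes W m f φF (ψ u)) (hsupp : ∀ u k g, gdeg χ g ≠ c → ψ u k g = 0)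
    (hflat : ∀ i u k g, IsForm W m k g → δ i (ψ u k g) =
      ∑ a ∈ f.support, φF (D i (coeff a f)) * ψ u (k + 1) (g + a) + ∑ u', M i u' u * ψ u' k g)
    (hind : LinearIndependent F (fun u => fun x : Forms W m => ψ u x.1.1 x.1.2))
    (j : ℕ) (y : Fin t → F) (hy : y ≠ 0)
    (hkill : ∀ k g, IsForm W m k g → k ≤ j → ∑ u, y u * ψ u k g = 0)
    (ht : t ≤ (𝓑.filter fun x => x.1.1 ≤ j).card) : False := by
  classical
  have hI : Nonempty (Fin t) := by
    by_contra h
    rw [not_nonempty_iff] at h
    exact hy (funext fun u => (h.false u).elim)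
  let I := Fin t
  have hgen : ∀ (K : Type u) [Field K] (φ : R →+* K), Function.Injective φ → ∀ L,
      Gen W m (map φ f) χ c 𝓑 L := by
    intro K _ φ hφ L x _ hx
    obtain ⟨r, hr, h1⟩ := hsol.hodge.2 x hx
    exact gen_map W m φ f 𝓑 x.1.1 x.1.2 r (by rwa [Ne, map_eq_zero_iff φ hφ]) h1
  have hweight : ∀ (K : Type u) [Field K] (φ : R →+* K), ∀ a ∈ (map φ f).support,
      ∑ v, W v * a v = m := fun K _ φ a ha => hf a (support_map_subset _ _ ha)
  rcases hcase with ⟨l, hl⟩ | hcase
  · -- only one Hodge number
    have hne : (𝓑.filter fun x => x.1.1 ≤ j).Nonempty := by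
      rw [← Finset.card_pos]
      have := Fin.pos (Classical.choice hI)
      omega
    obtain ⟨x₀, hx₀⟩ := hne
    rw [Finset.mem_filter] at hx₀
    have hlj : l ≤ j := by rw [← hl x₀ hx₀.1]; exact hx₀.2
    have h1 : ∀ k g, IsForm W m k g → ∑ u, y u * ψ u k g = 0 := by
      intro k g hg
      refine lower W m (map φF f) (hweight F φF) (fun k g => ∑ u, y u * ψ u k g) ?_ χ c ?_ 𝓑 k
        (hgen F φF hφF k) ?_ k g hg le_rfl
      · rw [stokes_map]
        exact Stokes.sum Finset.univ ψ hst y
      · intro k g hg
        exact Finset.sum_eq_zero fun u _ => by rw [hsupp u k g hg, mul_zero]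
      · intro x hx _
        exact hkill _ _ x.2 (by rw [hl x hx]; exact hlj)
    rw [Fintype.linearIndependent_iff] at hind
    apply hy
    funext u
    refine hind y ?_ u
    funext x
    rw [Finset.sum_apply]
    simp only [Pi.smul_apply, smul_eq_mul, Pi.zero_apply]
    exact h1 _ _ x.2
  have hE : CharZero E := charZero_of_injective_ringHom hφE
  obtain ⟨Ω, _, a, b, hab⟩ := exists_comp φE φF hφE hφF
  let π' : Fin n → Forms W m → E := fun i x => π i x.1.1 x.1.2
  let ψ' : I → Forms W m → F := fun u x => ψ u x.1.1 x.1.2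
  let s : I → Forms W m → Ω := fun u x => b (ψ' u x)
  -- forms with poles of order at most `j`
  let ρ : I → {x // x ∈ 𝓑.filter fun x => x.1.1 ≤ j} := fun u =>
    (Finset.equivFin _).symm (Fin.castLE ht u)
  have hρ : Function.Injective ρ := (Equiv.injective _).comp (Fin.castLE_injective ht)
  let form : I → Forms W m := fun u => (ρ u).1
  have hformB : ∀ u, form u ∈ 𝓑 := fun u => (Finset.mem_filter.1 (ρ u).2).1
  have hformj : ∀ u, (form u).1.1 ≤ j := fun u => (Finset.mem_filter.1 (ρ u).2).2
  have hforminj : Function.Injective form := Subtype.val_injective.comp hρ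
  -- the coefficients
  have hC : ∀ u, ∃ l : Fin n → Ω, ∀ x, s u x = ∑ i, l i * a (π' i x) := by
    intro u
    refine complete_extend a π' hsol.indep
      (fun t => ∃ s' : ℕ → (V →₀ ℕ) → E, Griffiths W m f φE s' ∧
        (∀ k g, gdeg χ g ≠ c → s' k g = 0) ∧ ∀ x : Forms W m, s' x.1.1 x.1.2 = t x) ?_ (s u) ?_
    · rintro t ⟨s', h1, h2, h3⟩
      obtain ⟨l, hl⟩ := hsol.complete s' h1 h2
      exact ⟨l, fun x => by rw [← h3 x]; exact hl x⟩
    · intro l hadd hlin
      have hl0 : l 0 = 0 := by
        have := hadd 0 0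
        simpa using this
      have hsum : ∀ (t : Finset (V →₀ ℕ)) (y : (V →₀ ℕ) → Ω), l (∑ i ∈ t, y i) = ∑ i ∈ t, l (y i) := by
        intro t y
        induction t using Finset.induction_on with
        | empty => simp [hl0]
        | insert z t hz ih => rw [Finset.sum_insert hz, Finset.sum_insert hz, hadd, ih]
      refine ⟨fun k g => l (b (ψ u k g)), ?_, ?_, fun x => rfl⟩
      · intro k g i hk hg hpos
        have h1 := congrArg (fun z => l (b z)) (hst u k g i hk hg hpos)
        simp only [map_zero, hl0] at h1
        rw [map_add, map_mul, map_sum, hadd, hsum, map_natCast] at h1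
        have h2 : ∀ z : V →₀ ℕ, l (b (φF (coeff z f) * (z i : F) * ψ u (k + 1) (g + z))) =
            φE (coeff z f) * (z i : E) * l (b (ψ u (k + 1) (g + z))) := by
          intro z
          rw [map_mul, map_mul, map_natCast, ← hab, ← map_natCast a, ← map_mul, hlin]
        simp only [h2] at h1
        rw [← map_natCast a, hlin] at h1
        exact h1
      · intro k g hg
        simp only [hsupp u k g hg, map_zero, hl0]
  choose Cf hCf using hC
  let C' : Matrix (Fin n) I Ω := Matrix.of fun i u => Cf u i
  let P : Matrix I (Fin n) Ω := Matrix.of fun w i => a (π' i (form w))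
  have hsC : s = fun u x => ∑ i, C' i u * a (π' i x) := by
    funext u x
    exact hCf u x
  -- the ranks
  have hCrank : ∀ y : I → Ω, C' *ᵥ y = 0 → y = 0 := by
    intro y hy
    have h1 := li_extend b (fun u => fun x : Forms W m => ψ u x.1.1 x.1.2) hind
    rw [Fintype.linearIndependent_iff] at h1
    funext u
    refine h1 y ?_ u
    funext x
    rw [Finset.sum_apply]
    simp only [Pi.smul_apply, smul_eq_mul, Pi.zero_apply]
    have h2 : ∀ u, y u * b (ψ u x.1.1 x.1.2) = ∑ i, (C' i u * y u) * a (π' i x) := by
      intro u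
      have h3 : b (ψ u x.1.1 x.1.2) = ∑ i, C' i u * a (π' i x) := hCf u x
      rw [h3, Finset.mul_sum]
      refine Finset.sum_congr rfl fun i _ => ?_
      ring
    simp only [h2]
    rw [Finset.sum_comm]
    refine Finset.sum_eq_zero fun i _ => ?_
    rw [← Finset.sum_mul]
    have h4 := congrFun hy i
    simp only [Matrix.mulVec, dotProduct, Pi.zero_apply] at h4
    rw [h4, zero_mul]
  have hrows : LinearIndependent E (fun w : I => fun i => π' i (form w)) := by
    have hcol : ∀ y : Fin n → E, (∀ x ∈ 𝓑, ∑ i, y i * π' i x = 0) → y = 0 := by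
      intro y hy
      have h1 : ∀ k g, IsForm W m k g → ∑ i, y i * π i k g = 0 := by
        intro k g hg
        refine lower W m (map φE f) (hweight E φE) (fun k g => ∑ i, y i * π i k g) ?_ χ c ?_ 𝓑 k
          (hgen E φE hφE k) ?_ k g hg le_rfl
        · rw [stokes_map]
          exact Stokes.sum Finset.univ π (fun i => (hsol.period i).stokes) y
        · intro k g hg
          exact Finset.sum_eq_zero fun i _ => by rw [hsol.support i k g hg, mul_zero]
        · intro x hx _
          exact hy x hx
      have h2 := hsol.indep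
      rw [Fintype.linearIndependent_iff] at h2
      funext i
      refine h2 y ?_ i
      funext x
      rw [Finset.sum_apply]
      simp only [Pi.smul_apply, smul_eq_mul, Pi.zero_apply]
      exact h1 _ _ x.2
    let e : Fin n ≃ {x // x ∈ 𝓑} := (Finset.equivFinOfCardEq hsol.card).symm
    let Mx : Matrix (Fin n) (Fin n) E := Matrix.of fun i' i => π' i (e i').1
    have hPi : IsUnit Mx := by
      rw [← Matrix.mulVec_injective_iff_isUnit]
      intro y₁ y₂ h12
      rw [← sub_eq_zero]
      refine hcol _ fun x hx => ?_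
      have h1 := congrFun h12 (e.symm ⟨x, hx⟩)
      simp only [Matrix.mulVec, dotProduct, Mx, Matrix.of_apply, Equiv.apply_symm_apply] at h1
      simp only [Pi.sub_apply, sub_mul, Finset.sum_sub_distrib]
      rw [sub_eq_zero]
      simpa only [mul_comm] using h1
    have h1 := Matrix.linearIndependent_rows_iff_isUnit.2 hPi
    have h2 := h1.comp (fun w : I => e.symm ⟨form w, hformB w⟩) (by
      intro w₁ w₂ h
      exact hforminj (congrArg (fun z : {x // x ∈ 𝓑} => z.1) (e.symm.injective h)))
    have h3 : (Mx.row ∘ fun w : I => e.symm ⟨form w, hformB w⟩) = fun w : I => fun i => π' i (form w) := by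
      funext w i
      simp only [Function.comp_apply, Matrix.row_apply, Mx, Matrix.of_apply, Equiv.apply_symm_apply]
    rw [← h3]
    exact h2
  have hPrank : ∀ z : I → Ω, z ᵥ* P = 0 → z = 0 := by
    intro z hz
    have h1 := li_extend a (fun w : I => fun i => π' i (form w)) hrows
    rw [Fintype.linearIndependent_iff] at h1
    funext w
    refine h1 z ?_ w
    funext i
    rw [Finset.sum_apply]
    have h4 := congrFun hz i
    simp only [Matrix.vecMul, dotProduct, Pi.zero_apply] at h4
    simp only [Pi.smul_apply, smul_eq_mul, Pi.zero_apply]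
    exact h4
  -- the determinant is zero
  have hdet : (Matrix.of fun w u => ψ' u (form w)).det = 0 := by
    rw [← Matrix.exists_mulVec_eq_zero_iff]
    refine ⟨y, hy, ?_⟩
    funext w
    simp only [Matrix.mulVec, dotProduct, Matrix.of_apply, Pi.zero_apply]
    rw [← hkill _ _ (form w).2 (hformj w)]
    refine Finset.sum_congr rfl fun u _ => ?_
    rw [mul_comm]
  have hdetτ : ∀ τ : I → I, (Matrix.of fun w u => ψ' (τ u) (form w)).det = 0 := by
    intro τ
    have h1 : (Matrix.of fun w u => ψ' (τ u) (form w)) =
        (Matrix.of fun w u => ψ' u (form w)) * (Matrix.of fun u' u => if u' = τ u then (1 : F) else 0) := by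
      ext w u
      rw [Matrix.mul_apply]
      simp only [Matrix.of_apply, mul_ite, mul_one, mul_zero]
      rw [Finset.sum_eq_single (τ u)]
      · rw [if_pos rfl]
      · intro x _ hx
        rw [if_neg hx]
      · intro h
        exact absurd (Finset.mem_univ _) h
    rw [h1, det_mul, hdet, zero_mul]
  -- the derivatives of the determinant
  have hnab := fun (j : J) (Q : (I → Forms W m) →₀ R) => exists_nabla' f hf D j Q
  choose nab hnab using hnab
  let iter : List J → (I → Forms W m) →₀ R := fun l => l.foldr nab (detT R form)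
  have hiter : ∀ j l, iter (j :: l) = nab j (iter l) := fun j l => rfl
  have hzero : ∀ l, ∀ τ : I → I, evT φF (fun u x => ψ' (τ u) x) (iter l) = 0 := by
    intro l
    induction l with
    | nil =>
      intro τ
      change evT φF (fun u x => ψ' (τ u) x) (detT R form) = 0
      rw [evT_det]
      exact hdetτ τ
    | cons i l ih =>
      intro τ
      have h1 := hnab i (iter l) F φF δ hcompF (fun u x => ψ' (τ u) x)
        (fun u x => ∑ u', M i u' (τ u) * ψ' u' x) (by
          intro u x
          have h2 := hflat i (τ u) x.1.1 x.1.2 x.2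
          rw [← Finset.sum_attach] at h2
          exact h2)
      rw [ih τ, map_zero] at h1
      have h3 : ∀ u, evT φF (Function.update (fun u x => ψ' (τ u) x) u
          (fun x => ∑ u', M i u' (τ u) * ψ' u' x)) (iter l) = 0 := by
        intro u
        rw [evT_update_sum]
        refine Finset.sum_eq_zero fun u' _ => ?_
        have h4 : Function.update (fun u x => ψ' (τ u) x) u (ψ' u') =
            fun v x => ψ' (Function.update τ u u' v) x := by
          funext v x
          by_cases hv : v = u
          · subst hv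
            rw [Function.update_self, Function.update_self]
          · rw [Function.update_of_ne hv, Function.update_of_ne hv]
        rw [h4, ih, mul_zero]
      rw [Finset.sum_eq_zero fun u _ => h3 u, add_zero] at h1
      rw [hiter]
      exact h1.symm
  let v : List J → (I → Fin n) → E := fun l κ => evT φE (fun u => π' (κ u)) (iter l)
  have hv : ∀ l j, ∃ l', ∀ κ, ε j (v l κ) = v l' κ := by
    intro l i
    refine ⟨i :: l, fun κ => ?_⟩
    have h1 := hnab i (iter l) E φE ε hcompE (fun u => π' (κ u)) (fun _ _ => 0) (by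
      intro u x
      have h2 := (hsol.period (κ u)).flat x.1.1 x.1.2 i x.2.1 x.2.2.1 x.2.2.2
      rw [← Finset.sum_attach] at h2
      rw [add_zero]
      exact h2)
    rw [Finset.sum_eq_zero fun u _ => evT_update_zero φE _ u _, add_zero] at h1
    exact h1
  have hq : ∀ l, ∑ κ : I → Fin n, (∏ u, C' (κ u) u) * a (v l κ) = 0 := by
    intro l
    have h1 : evT (a.comp φE) s (iter l) = 0 := by
      have h2 : a.comp φE = b.comp φF := RingHom.ext hab
      rw [h2]
      change evT (b.comp φF) (fun u x => b (ψ' u x)) (iter l) = 0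
      have h4 : evT φF ψ' (iter l) = 0 := hzero l id
      rw [evT_map]
      change b (evT φF ψ' (iter l)) = 0
      rw [h4, map_zero]
    rw [hsC] at h1
    have h3 := (evT_multi (a.comp φE) (fun i x => a (π' i x)) (fun i u => C' i u)
      (iter l)).symm.trans h1
    rw [← h3]
    refine Finset.sum_congr rfl fun κ _ => ?_
    congr 1
    exact (evT_map φE a (fun u => π' (κ u)) (iter l)).symm
  -- the transforms of the determinant
  have key : ∀ (γ : E →+* E), (∀ x, (∀ j, ε j x = 0) → γ x = x) →
      ∀ g : Matrix (Fin n) (Fin n) E, (∀ i x, γ (π' i x) = ∑ i', π' i' x * g i' i) →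
      (P * g.map a * C').det = 0 := by
    intro γ hγ g hg
    have h1 := const_map ε v hv a (fun κ => ∏ u, C' (κ u) u) hq γ hγ []
    have h2 : ∀ κ : I → Fin n, a (γ (v [] κ)) =
        evT (a.comp φE) (fun u x => a (γ (π' (κ u) x))) (detT R form) := by
      intro κ
      change a (γ (evT φE (fun u => π' (κ u)) (detT R form))) = _
      rw [evT_det, evT_det, ← RingHom.comp_apply, RingHom.map_det]
      congr 1
    simp only [h2] at h1
    have h3 := evT_multi (a.comp φE) (fun i x => a (γ (π' i x))) (fun i u => C' i u) (detT R form)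
    rw [h1, evT_det] at h3
    rw [← h3]
    congr 1
    ext w u
    simp only [Matrix.mul_apply, Matrix.of_apply, Matrix.map_apply]
    refine Finset.sum_congr rfl fun i _ => ?_
    rw [mul_comm]
    congr 1
    rw [hg, map_sum]
    refine Finset.sum_congr rfl fun i' _ => ?_
    rw [map_mul]
    rfl
  have hbig : Big (Fintype.card I) (monodromy W m φE ε π) := by
    rcases hcase with h | h | h
    · exact Or.inl h
    · exact Or.inr (Or.inl h)
    · exact Or.inr (Or.inr (Or.inl h))
  refine big_false a P hPrank C' hCrank hbig ?_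
  rintro g ⟨_, γ, _, _, hγ, hg⟩
  exact key γ hγ g hg

end Pool.Agent.H19.Opp
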