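import Mathlib
import Pool.Agent.H19.Opp.Low
import Pool.Agent.H19.Ord.Limit

/-!
The space of the functionals with the character `c` which kill the forms with poles of large order: it
is stable under the derivations, and its dimension is bounded by the Hodge numbers.
-/

set_option autoImplicit false

namespace Pool.Agent.H19.Opp

universe u

open MvPolynomial Pool.Agent.H19.Ord

variable {V : Type} [Fintype V] {R κ : Type u} [CommRing R] [Field κ] {W : V → ℕ} {m : ℕ}
  {f : MvPolynomial V R} {φ : R →+* κ} {G : Type} [AddCommGroup G] {χ : V → G} {c : G}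

lemma Stokes.smul' {ψ : ℕ → (V →₀ ℕ) → κ} (h : Stokes W m f φ ψ) (b : κ) :
    Stokes W m f φ (b • ψ) := by
  intro k g i hk hg hpos
  have h1 := congrArg (fun z => b * z) (h k g i hk hg hpos)
  simp only [mul_zero] at h1
  rw [← h1, mul_add, Finset.mul_sum]
  simp only [Pi.smul_apply, smul_eq_mul]
  congr 1
  · ring
  · refine Finset.sum_congr rfl fun a _ => ?_
    ring

lemma Stokes.add' {ψ ψ' : ℕ → (V →₀ ℕ) → κ} (h : Stokes W m f φ ψ) (h' : Stokes W m f φ ψ') :
    Stokes W m f φ (ψ + ψ') := by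
  intro k g i hk hg hpos
  have h1 := h k g i hk hg hpos
  have h2 := h' k g i hk hg hpos
  simp only [Pi.add_apply, mul_add, Finset.sum_add_distrib]
  linear_combination h1 + h2

open Classical in
/-- the part of a functional with the character `c` -/
lemma stokes_restrict (hf : ∀ a ∈ f.support, ∑ v, W v * a v = m)
    (hχ : ∀ a ∈ f.support, gdeg χ a = 0) {ψ : ℕ → (V →₀ ℕ) → κ} (h : Stokes W m f φ ψ) :
    Stokes W m f φ (fun k g => if IsForm W m k g ∧ gdeg χ g = c then ψ k g else 0) := by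
  intro k g i hk hg hpos
  by_cases hc : gdeg χ g = c
  · have h1 := h k g i hk hg hpos
    refine Eq.trans ?_ h1
    congr 1
    · by_cases hgi : g i = 0
      · rw [hgi]
        simp
      · congr 1
        refine if_pos ⟨⟨hk, hg, fun v => ?_⟩, hc⟩
        by_cases hv : v = i
        · rw [hv]; omega
        · exact hpos v hv
    · refine Finset.sum_congr rfl fun a ha => ?_
      by_cases hai : a i = 0
      · rw [hai]
        simp
      · congr 1
        refine if_pos ⟨⟨by omega, sum_pos_of_support g a k (hf a ha) hg, fun v => ?_⟩, ?_⟩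
        · rw [Finsupp.add_apply]
          by_cases hv : v = i
          · rw [hv]; omega
          · have := hpos v hv
            omega
        · rw [gdeg_add, hχ a ha, add_zero, hc]
  · have h1 : (if IsForm W m k g ∧ gdeg χ g = c then ψ k g else 0) = 0 := if_neg fun h => hc h.2
    have h2 : ∀ a ∈ f.support, (if IsForm W m (k + 1) (g + a) ∧ gdeg χ (g + a) = c then
        ψ (k + 1) (g + a) else 0) = 0 := by
      intro a ha
      refine if_neg ?_
      rintro ⟨_, h2⟩
      rw [gdeg_add, hχ a ha, add_zero] at h2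
      exact hc h2
    beta_reduce
    rw [h1, mul_zero, zero_add]
    refine Finset.sum_eq_zero fun a ha => ?_
    rw [h2 a ha, mul_zero]

variable (W m f φ χ c)

/-- the functionals with the character `c` which kill the forms with poles of order greater than `q` -/
def Sol (q : ℕ) : Submodule κ (ℕ → (V →₀ ℕ) → κ) where
  carrier := {ψ | Stokes W m f φ ψ ∧ (∀ k g, gdeg χ g ≠ c → ψ k g = 0) ∧
    (∀ k g, ¬ IsForm W m k g → ψ k g = 0) ∧ ∀ k g, q < k → ψ k g = 0}
  add_mem' := by
    rintro a b ⟨h1, h2, h3, h4⟩ ⟨h1', h2', h3', h4'⟩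
    refine ⟨Stokes.add' h1 h1', fun k g h => ?_, fun k g h => ?_, fun k g h => ?_⟩
    · rw [Pi.add_apply, Pi.add_apply, h2 k g h, h2' k g h, add_zero]
    · rw [Pi.add_apply, Pi.add_apply, h3 k g h, h3' k g h, add_zero]
    · rw [Pi.add_apply, Pi.add_apply, h4 k g h, h4' k g h, add_zero]
  zero_mem' := by
    refine ⟨fun k g i _ _ _ => ?_, fun k g _ => rfl, fun k g _ => rfl, fun k g _ => rfl⟩
    simp
  smul_mem' := by
    rintro b a ⟨h1, h2, h3, h4⟩
    refine ⟨Stokes.smul' h1 b, fun k g h => ?_, fun k g h => ?_, fun k g h => ?_⟩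
    · rw [Pi.smul_apply, Pi.smul_apply, h2 k g h, smul_zero]
    · rw [Pi.smul_apply, Pi.smul_apply, h3 k g h, smul_zero]
    · rw [Pi.smul_apply, Pi.smul_apply, h4 k g h, smul_zero]

open Classical in
/-- the connection on the functionals -/
noncomputable def nabla (D : Derivation ℤ R R) (δ : Derivation ℤ κ κ) (ψ : ℕ → (V →₀ ℕ) → κ)
    (k : ℕ) (g : V →₀ ℕ) : κ :=
  if IsForm W m k g then
    δ (ψ k g) - ∑ a ∈ f.support, φ (D (coeff a f)) * ψ (k + 1) (g + a) else 0

variable {W m f φ χ c}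

/-- the space is stable -/
theorem nabla_mem (hf : ∀ a ∈ f.support, ∑ v, W v * a v = m)
    (hχ : ∀ a ∈ f.support, gdeg χ a = 0) (D : Derivation ℤ R R) (δ : Derivation ℤ κ κ)
    (hD : ∀ a, δ (φ a) = φ (D a)) (q : ℕ) (ψ : ℕ → (V →₀ ℕ) → κ)
    (hψ : ψ ∈ Sol W m f φ χ c q) : nabla W m f φ D δ ψ ∈ Sol W m f φ χ c q := by
  classical
  obtain ⟨h1, h2, h3, h4⟩ := hψ
  refine ⟨?_, ?_, ?_, ?_⟩
  · intro k g i hk hg hpos
    -- without the condition
    have e1 : (g i : κ) * nabla W m f φ D δ ψ k g =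
        (g i : κ) * (δ (ψ k g) - ∑ b ∈ f.support, φ (D (coeff b f)) * ψ (k + 1) (g + b)) := by
      by_cases hgi : g i = 0
      · rw [hgi]
        simp
      · rw [nabla, if_pos]
        refine ⟨hk, hg, fun v => ?_⟩
        by_cases hv : v = i
        · rw [hv]; omega
        · exact hpos v hv
    have e2 : ∑ a ∈ f.support, φ (coeff a f) * (a i : κ) * nabla W m f φ D δ ψ (k + 1) (g + a) =
        ∑ a ∈ f.support, φ (coeff a f) * (a i : κ) * (δ (ψ (k + 1) (g + a)) -
          ∑ b ∈ f.support, φ (D (coeff b f)) * ψ (k + 1 + 1) (g + a + b)) := by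
      refine Finset.sum_congr rfl fun a ha => ?_
      by_cases hai : a i = 0
      · rw [hai]
        simp
      · rw [nabla, if_pos]
        refine ⟨by omega, sum_pos_of_support g a k (hf a ha) hg, fun v => ?_⟩
        rw [Finsupp.add_apply]
        by_cases hv : v = i
        · rw [hv]; omega
        · have := hpos v hv
          omega
    rw [e1, e2]
    have s1 := congrArg δ (h1 k g i hk hg hpos)
    have hn : ∀ n : ℕ, δ (n : κ) = 0 := fun n => δ.map_natCast n
    rw [map_add, map_sum, map_zero, Derivation.leibniz, hn, smul_zero, add_zero, smul_eq_mul] at s1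
    have s1' : ∀ a ∈ f.support, δ (φ (coeff a f) * (a i : κ) * ψ (k + 1) (g + a)) =
        φ (coeff a f) * (a i : κ) * δ (ψ (k + 1) (g + a)) +
          φ (D (coeff a f)) * (a i : κ) * ψ (k + 1) (g + a) := by
      intro a _
      rw [Derivation.leibniz, Derivation.leibniz, hn, hD]
      simp only [smul_eq_mul, smul_zero, zero_add]
      ring
    rw [Finset.sum_congr rfl s1', Finset.sum_add_distrib] at s1
    have s2 : ∀ b ∈ f.support, φ (D (coeff b f)) * (((g i : κ) + (b i : κ)) * ψ (k + 1) (g + b)) +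
        ∑ a ∈ f.support, φ (coeff a f) * (a i : κ) * (φ (D (coeff b f)) *
          ψ (k + 1 + 1) (g + a + b)) = 0 := by
      intro b hb
      have h5 := h1 (k + 1) (g + b) i (by omega) (sum_pos_of_support g b k (hf b hb) hg)
        (fun v hv => by
          rw [Finsupp.add_apply]
          have := hpos v hv
          omega)
      have h6 := congrArg (fun z => φ (D (coeff b f)) * z) h5
      simp only [mul_zero] at h6
      rw [← h6, mul_add, Finset.mul_sum]
      congr 1
      · rw [Finsupp.add_apply]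
        push_cast
        ring
      · refine Finset.sum_congr rfl fun a _ => ?_
        rw [add_right_comm g b a]
        ring
    have s3 := Finset.sum_eq_zero s2
    rw [Finset.sum_add_distrib, Finset.sum_comm] at s3
    simp only [mul_sub, Finset.mul_sum, Finset.sum_sub_distrib]
    have s4 : ∑ b ∈ f.support, φ (D (coeff b f)) * (((g i : κ) + (b i : κ)) * ψ (k + 1) (g + b)) =
        ∑ b ∈ f.support, (g i : κ) * (φ (D (coeff b f)) * ψ (k + 1) (g + b)) +
        ∑ b ∈ f.support, φ (D (coeff b f)) * (b i : κ) * ψ (k + 1) (g + b) := by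
      rw [← Finset.sum_add_distrib]
      refine Finset.sum_congr rfl fun b _ => ?_
      ring
    rw [s4] at s3
    linear_combination s1 - s3
  · intro k g hg
    rw [nabla]
    split_ifs with h
    · rw [h2 k g hg, map_zero, zero_sub, neg_eq_zero]
      refine Finset.sum_eq_zero fun a ha => ?_
      rw [h2 (k + 1) (g + a) (by rwa [gdeg_add, hχ a ha, add_zero]), mul_zero]
    · rfl
  · intro k g hg
    rw [nabla, if_neg hg]
  · intro k g hk
    rw [nabla]
    split_ifs with h
    · rw [h4 k g hk, map_zero, zero_sub, neg_eq_zero]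
      refine Finset.sum_eq_zero fun a ha => ?_
      rw [h4 (k + 1) (g + a) (by omega), mul_zero]
    · rfl

/-- **The data at a point.** -/
theorem point {J : Type} (hm1 : 1 ≤ m) (hf : ∀ a ∈ f.support, ∑ v, W v * a v = m)
    (hχ : ∀ a ∈ f.support, gdeg χ a = 0) (D : J → Derivation ℤ R R) (δ : J → Derivation ℤ κ κ)
    (hD : ∀ i a, δ i (φ a) = φ (D i a)) (p : ℕ) [hp : Fact p.Prime] [CharP κ p] (hm : (m : κ) ≠ 0)
    (hpc : ∀ u : V →₀ ℕ, gdeg χ (p • u) = c → gdeg χ u = c) (j : ℕ) (𝓑 : Finset (Forms W m))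
    (hgen : Gen W m (map φ f) χ c 𝓑 j) (N L : ℕ) (hJ : JacFrom W (map φ f) N)
    (hL : N + ∑ v, W v + 1 ≤ L) (ψ₀ : ℕ → (V →₀ ℕ) → κ) (h₀ : Stokes W m f φ ψ₀)
    (h1 : ∀ k g, IsForm W m k g → k ≤ j → ψ₀ k g = 0)
    (h2 : ∀ k g, IsForm W m k g → p * j < k → ψ₀ k g = 0)
    (z : ℕ × (V →₀ ℕ)) (hz : IsForm W m z.1 z.2) (hzc : gdeg χ z.2 = c) (hz0 : ψ₀ z.1 z.2 ≠ 0) :
    ∃ t ≤ (𝓑.filter fun x => x.1.1 ≤ j).card, ∃ (ψ : Fin t → ℕ → (V →₀ ℕ) → κ)
      (M : J → Fin t → Fin t → κ) (y : Fin t → κ),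
      (∀ u, Stokes W m f φ (ψ u)) ∧ (∀ u k g, gdeg χ g ≠ c → ψ u k g = 0) ∧
      (∀ i u k g, IsForm W m k g → δ i (ψ u k g) =
        ∑ a ∈ f.support, φ (D i (coeff a f)) * ψ u (k + 1) (g + a) + ∑ u', M i u' u * ψ u' k g) ∧
      (∀ x : Fin t → κ, (∀ k g, IsForm W m k g → k ≤ L → ∑ u, x u * ψ u k g = 0) → x = 0) ∧
      (∀ k g, IsForm W m k g → k ≤ j → ∑ u, y u * ψ u k g = 0) ∧
      ∑ u, y u * ψ u z.1 z.2 ≠ 0 := by
  classical
  let S := Sol W m f φ χ c (p * j)
  let 𝓒 := 𝓑.filter fun x => x.1.1 ≤ j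
  let ev : S →ₗ[κ] ({x // x ∈ 𝓒} → κ) :=
    { toFun := fun ψ x => ψ.1 (p * x.1.1.1) (p • x.1.1.2)
      map_add' := fun _ _ => rfl
      map_smul' := fun _ _ => rfl }
  have hF : ∀ a ∈ (map φ f).support, ∑ v, W v * a v = m :=
    fun a ha => hf a (support_map_subset _ _ ha)
  have hext : ∀ ψ : S, (∀ k g, IsForm W m k g → ψ.1 k g = 0) → ψ = 0 := by
    intro ψ h
    apply Subtype.ext
    funext k g
    by_cases hg : IsForm W m k g
    · exact h k g hg
    · exact ψ.2.2.2.1 k g hg
  have hinj : Function.Injective ev := by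
    rw [injective_iff_map_eq_zero]
    intro ψ hψ
    refine hext ψ ?_
    refine raise W m (map φ f) hF ψ.1 ((stokes_map W m f φ ψ.1).2 ψ.2.1) p χ c hm ψ.2.2.1 hpc j
      (fun k g _ hk => ψ.2.2.2.2 k g hk) 𝓑 hgen ?_
    intro x hx hxj
    exact congrFun hψ ⟨x, Finset.mem_filter.2 ⟨hx, hxj⟩⟩
  have hfin : Module.Finite κ S := Module.Finite.of_injective ev hinj
  let b := Module.finBasis κ S
  have hrep : ∀ (ψ : S) k g, ∑ u, b.repr ψ u * (b u).1 k g = ψ.1 k g := by
    intro ψ k g
    have h3 : (∑ u, b.repr ψ u • b u).1 k g = ψ.1 k g := by rw [b.sum_repr]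
    rw [← h3]
    simp only [Submodule.coe_sum, Submodule.coe_smul, Finset.sum_apply, Pi.smul_apply, smul_eq_mul]
  refine ⟨Module.finrank κ S, ?_, fun u => (b u).1, fun i u' u =>
    b.repr ⟨nabla W m f φ (D i) (δ i) (b u).1, nabla_mem hf hχ (D i) (δ i) (hD i) _ _ (b u).2⟩ u',
    b.repr ⟨fun k g => if IsForm W m k g ∧ gdeg χ g = c then ψ₀ k g else 0,
      stokes_restrict hf hχ h₀, fun k g h => if_neg fun h' => h h'.2,
      fun k g h => if_neg fun h' => h h'.1, fun k g h => ?_⟩, fun u => (b u).2.1,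
      fun u => (b u).2.2.1, ?_, ?_, ?_, ?_⟩
  · have h3 := LinearMap.finrank_le_finrank_of_injective hinj
    rw [Module.finrank_fintype_fun_eq_card, Fintype.card_coe] at h3
    exact h3
  · by_cases h' : IsForm W m k g ∧ gdeg χ g = c
    · exact (if_pos h').trans (h2 k g h'.1 h)
    · exact if_neg h'
  · intro i u k g hg
    rw [hrep]
    change _ = _ + nabla W m f φ (D i) (δ i) (b u).1 k g
    rw [nabla, if_pos hg]
    ring
  · intro x hx
    have h3 : ∑ u, x u • b u = 0 := by
      refine hext _ ?_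
      have h4 : ∀ k g, (∑ u, x u • b u).1 k g = ∑ u, x u * (b u).1 k g := by
        intro k g
        simp only [Submodule.coe_sum, Submodule.coe_smul, Finset.sum_apply, Pi.smul_apply,
          smul_eq_mul]
      intro k g hg
      refine reduction W m hm1 f hf φ N hJ (∑ u, x u • b u).1 (∑ u, x u • b u).2.1 ?_ k g hg.1
        hg.2.1 hg.2.2
      intro k g hk hkN hg hpos
      rw [h4]
      exact hx k g ⟨hk, hg, hpos⟩ (by omega)
    have h4 := Fintype.linearIndependent_iff.1 b.linearIndependent x h3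
    exact funext h4
  · intro k g hg hk
    rw [hrep]
    by_cases h' : IsForm W m k g ∧ gdeg χ g = c
    · exact (if_pos h').trans (h1 k g hg hk)
    · exact if_neg h'
  · rw [hrep]
    have h' : (if IsForm W m z.1 z.2 ∧ gdeg χ z.2 = c then ψ₀ z.1 z.2 else 0) = ψ₀ z.1 z.2 :=
      if_pos ⟨hz, hzc⟩
    change (if IsForm W m z.1 z.2 ∧ gdeg χ z.2 = c then ψ₀ z.1 z.2 else 0) ≠ 0
    rw [h']
    exact hz0

end Pool.Agent.H19.Opp
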