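import Mathlib
import Pool.Agent.H19.Opp.Sol
import Pool.Agent.H19.Opp.Mono

/-!
The limit argument: if the filtrations are not opposite at a sequence of generic points of large
characteristic, then the monodromy is not big.
-/

set_option autoImplicit false

namespace Pool.Agent.H19.Opp

universe u

open MvPolynomial Filter Pool.Agent.H19.Ord

/-- characters of the Frobenius twists -/
lemma gdeg_twist {V : Type} [Fintype V] {G : Type} [AddCommGroup G] (χ : V → G) (e : ℕ)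
    (he : ∀ c : G, e • c = 0) (p : ℕ) (hp : p ≡ 1 [MOD e]) (u : V →₀ ℕ) :
    gdeg χ (p • u) = gdeg χ u := by
  rw [gdeg_smul]
  have h2 : ((p : ℤ) - 1) • gdeg χ u = 0 := by
    have h3 : (e : ℤ) ∣ (p : ℤ) - 1 := by
      have := (Nat.modEq_iff_dvd.1 hp.symm)
      simpa using this
    obtain ⟨r, hr⟩ := h3
    rw [hr, mul_comm, mul_smul]
    have := he (gdeg χ u)
    rw [natCast_zsmul, this, smul_zero]
  rw [sub_smul, one_smul, natCast_zsmul, sub_eq_zero] at h2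
  exact h2

section limit

variable {V : Type} [Fintype V] {R : Type u} [CommRing R]
  {J : Type} {G : Type} [AddCommGroup G]

/-- the data at a point of characteristic `p` -/
def Data (W : V → ℕ) (m : ℕ) (f : MvPolynomial V R) {D : J → Derivation ℤ R R} (χ : V → G) (c : G)
    (P : Pt D) (j L : ℕ) (z : ℕ × (V →₀ ℕ)) (t : ℕ) (ψ : Fin t → ℕ → (V →₀ ℕ) → P.κ)
    (M : J → Fin t → Fin t → P.κ) (y : Fin t → P.κ) : Prop :=
  (∀ u, Stokes W m f P.φ (ψ u)) ∧ (∀ u k g, gdeg χ g ≠ c → ψ u k g = 0) ∧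
  (∀ i u k g, IsForm W m k g → P.δ i (ψ u k g) =
    ∑ a ∈ f.support, P.φ (D i (coeff a f)) * ψ u (k + 1) (g + a) + ∑ u', M i u' u * ψ u' k g) ∧
  (∀ x : Fin t → P.κ, (∀ k g, IsForm W m k g → k ≤ L → ∑ u, x u * ψ u k g = 0) → x = 0) ∧
  (∀ k g, IsForm W m k g → k ≤ j → ∑ u, y u * ψ u k g = 0) ∧
  ∑ u, y u * ψ u z.1 z.2 ≠ 0

/-- **The limit argument.** -/
theorem limit2 [CharZero R] (W : V → ℕ) (hW : ∀ v, 0 < W v) (m : ℕ) (hm : 1 ≤ m)
    (f : MvPolynomial V R)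
    (hf : ∀ a ∈ f.support, ∑ v, W v * a v = m) (D : J → Derivation ℤ R R)
    (χ : V → G) (hχ : ∀ a ∈ f.support, gdeg χ a = 0) (e : ℕ) (he : ∀ c : G, e • c = 0)
    (b : R) (n₀ : ℕ) (hb : ∀ v, C b * (X v : MvPolynomial V R) ^ n₀ ∈
      Ideal.span (Set.range fun i => pderiv i f))
    (hbig : BigMonodromy W m f D χ)
    (P : ℕ → Pt D) (p : ℕ → ℕ) (hp : ∀ n, (p n).Prime) (hchar : ∀ n, CharP (P n).κ (p n))
    (hpe : ∀ n, p n ≡ 1 [MOD e]) (hbP : ∀ n, (P n).φ b ≠ 0)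
    (hinj : ∀ a, a ≠ 0 → ∀ᶠ n in atTop, (P n).φ a ≠ 0)
    (hbad : ∀ n, ∃ j, 1 ≤ j ∧ ¬ OppJ W m f (P n).φ (p n) j) : False := by
  classical
  let U : Ultrafilter ℕ := hyperfilter ℕ
  have hU : (U : Filter ℕ) ≤ atTop := by
    rw [← Nat.cofinite_eq_atTop]
    exact hyperfilter_le_cofinite
  let N₀ := (∑ v, W v) * n₀ + 1
  let L := N₀ + ∑ v, W v + 1
  have hJac : ∀ n, JacFrom W (map (P n).φ f) N₀ := fun n => jac_map (P n).φ f b (hbP n) n₀ hb W
  -- the bad functionals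
  have hbad' : ∀ n, ∃ (j : ℕ) (ψ : ℕ → (V →₀ ℕ) → (P n).κ) (z : ℕ × (V →₀ ℕ)), j ≤ L ∧
      Stokes W m f (P n).φ ψ ∧ (∀ k g, IsForm W m k g → k ≤ j → ψ k g = 0) ∧
      (∀ k g, IsForm W m k g → p n * j < k → ψ k g = 0) ∧ IsForm W m z.1 z.2 ∧ z.1 ≤ L ∧
      ψ z.1 z.2 ≠ 0 := by
    intro n
    obtain ⟨j, -, hj⟩ := hbad n
    rw [OppJ] at hj
    push Not at hj
    obtain ⟨ψ, h0, h1, h2, k, g, hg, hne⟩ := hj
    have h3 : ∃ z : ℕ × (V →₀ ℕ), IsForm W m z.1 z.2 ∧ z.1 ≤ L ∧ ψ z.1 z.2 ≠ 0 := by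
      by_contra hcon
      push Not at hcon
      refine hne (reduction W m hm f hf (P n).φ N₀ (hJac n) ψ h0 ?_ k g hg.1 hg.2.1 hg.2.2)
      intro k g hk hkL hg hpos
      exact hcon (k, g) ⟨hk, hg, hpos⟩ hkL
    obtain ⟨z, hz, hzL, hz0⟩ := h3
    refine ⟨j, ψ, z, ?_, h0, h1, h2, hz, hzL, hz0⟩
    by_contra hjL
    exact hz0 (h1 _ _ hz (by omega))
  choose j ψ₀ z hjL h0 h1 h2 hz hzL hz0 using hbad'
  have hZ := finite_forms W hW m L
  have hfinZ : ({x : ℕ × (V →₀ ℕ) | x.1 ≤ L ∧ ∑ v, W v * x.2 v = x.1 * m} ×ˢ Set.Iic L).Finite :=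
    hZ.prod (Set.finite_Iic L)
  have hex : ∀ᶠ n in (U : Filter ℕ), ∃ q ∈ ({x : ℕ × (V →₀ ℕ) | x.1 ≤ L ∧
      ∑ v, W v * x.2 v = x.1 * m} ×ˢ Set.Iic L), z n = q.1 ∧ j n = q.2 :=
    Eventually.of_forall fun n => ⟨(z n, j n), ⟨⟨hzL n, (hz n).2.1⟩, hjL n⟩, rfl, rfl⟩
  rw [Ultrafilter.eventually_exists_mem_iff hfinZ] at hex
  obtain ⟨⟨z₀, j₀⟩, -, hconst⟩ := hex
  simp only at hconst
  obtain ⟨n₁, hn₁⟩ := hconst.exists
  have hz₀ : IsForm W m z₀.1 z₀.2 := by rw [← hn₁.1]; exact hz n₁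
  let c : G := gdeg χ z₀.2
  obtain ⟨E, _, φE, ε, n, π, 𝓑, hφE, hcompE, hsol, hcase⟩ := hbig c ⟨⟨z₀, hz₀⟩, rfl⟩
  -- the generators of the Jacobian ring
  have hr : ∀ x : Forms W m, ∃ r : R, r ≠ 0 ∧ (gdeg χ x.1.2 = c →
      monomial x.1.2 r ∈ numer R 𝓑 x.1.1 ⊔ jac W m f x.1.1) := by
    intro x
    have h01 : (1 : R) ≠ 0 := by
      have h1 := (Nat.cast_ne_zero (R := R)).2 (one_ne_zero (α := ℕ))
      rwa [Nat.cast_one] at h1
    by_cases hx : gdeg χ x.1.2 = c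
    · obtain ⟨r, h3, h4⟩ := hsol.hodge.2 x hx
      exact ⟨r, h3, fun _ => h4⟩
    · exact ⟨1, h01, fun h => absurd h hx⟩
  choose r hr0 hr using hr
  have hgen : ∀ᶠ n in (U : Filter ℕ), Gen W m (map (P n).φ f) χ c 𝓑 j₀ := by
    have hfin := finite_forms W hW m j₀
    have h3 : ∀ᶠ n in (U : Filter ℕ), ∀ x ∈ {x : ℕ × (V →₀ ℕ) | x.1 ≤ j₀ ∧
        ∑ v, W v * x.2 v = x.1 * m}, ∀ hx : IsForm W m x.1 x.2, (P n).φ (r ⟨x, hx⟩) ≠ 0 := by
      rw [hfin.eventually_all]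
      intro x _
      by_cases hx : IsForm W m x.1 x.2
      · filter_upwards [hU (hinj _ (hr0 ⟨x, hx⟩))] with n hn _
        exact hn
      · exact Eventually.of_forall fun n h => absurd h hx
    filter_upwards [h3] with n hn x hxj hxc
    exact gen_map W m (P n).φ f 𝓑 x.1.1 x.1.2 (r x) (hn x.1 ⟨hxj, x.2.2.1⟩ x.2) (hr x hxc)
  have hmne : ∀ᶠ n in (U : Filter ℕ), ((m : ℕ) : (P n).κ) ≠ 0 := by
    filter_upwards [hU (hinj (m : R) (by
      rw [Ne, Nat.cast_eq_zero]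
      omega))] with n hn
    rwa [map_natCast] at hn
  -- the data
  have hdata : ∀ᶠ n in (U : Filter ℕ), ∃ t ∈ Set.Iic (𝓑.filter fun x => x.1.1 ≤ j₀).card,
      ∃ (ψ : Fin t → ℕ → (V →₀ ℕ) → (P n).κ) (M : J → Fin t → Fin t → (P n).κ)
        (y : Fin t → (P n).κ), Data W m f χ c (P n) j₀ L z₀ t ψ M y := by
    filter_upwards [hconst, hgen, hmne] with n hn hgn hmn
    have := Fact.mk (hp n)
    have := hchar n
    obtain ⟨t, ht, ψ, M, y, h3⟩ := point (κ := (P n).κ) (c := c) hm hf hχ D (P n).δ (P n).compat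
      (p n) hmn (fun u hu => by rwa [gdeg_twist χ e he (p n) (hpe n)] at hu) j₀ 𝓑 hgn N₀ L
      (hJac n) le_rfl (ψ₀ n) (h0 n) (by rw [← hn.2]; exact h1 n) (by rw [← hn.2]; exact h2 n) z₀ hz₀
      rfl (by rw [← hn.1]; exact hz0 n)
    exact ⟨t, ht, ψ, M, y, h3⟩
  rw [Ultrafilter.eventually_exists_mem_iff (Set.finite_Iic _)] at hdata
  obtain ⟨t, ht, hdata⟩ := hdata
  have hall : ∀ n, ∃ (ψ : Fin t → ℕ → (V →₀ ℕ) → (P n).κ) (M : J → Fin t → Fin t → (P n).κ)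
      (y : Fin t → (P n).κ), (∃ (ψ : Fin t → ℕ → (V →₀ ℕ) → (P n).κ)
        (M : J → Fin t → Fin t → (P n).κ) (y : Fin t → (P n).κ),
        Data W m f χ c (P n) j₀ L z₀ t ψ M y) → Data W m f χ c (P n) j₀ L z₀ t ψ M y := by
    intro n
    by_cases h : ∃ (ψ : Fin t → ℕ → (V →₀ ℕ) → (P n).κ)
        (M : J → Fin t → Fin t → (P n).κ) (y : Fin t → (P n).κ),
        Data W m f χ c (P n) j₀ L z₀ t ψ M y
    · obtain ⟨ψ, M, y, h3⟩ := h
      exact ⟨ψ, M, y, fun _ => h3⟩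
    · exact ⟨fun _ _ _ => 0, fun _ _ _ => 0, fun _ => 0, fun h' => absurd h' h⟩
  choose ψ M y hψ using hall
  have hgood : ∀ᶠ n in (U : Filter ℕ), Data W m f χ c (P n) j₀ L z₀ t (ψ n) (M n) (y n) := by
    filter_upwards [hdata] with n hn
    exact hψ n hn
  -- the ultraproduct
  let κ : ℕ → Type u := fun n => (P n).κ
  obtain ⟨K, _, cl, cl_surj, cl_eq_zero, cl_der⟩ := exists_ult κ U
  let Φ : R →+* K := cl.comp (RingHom.pi fun n => (P n).φ)
  have hΦ : ∀ a, Φ a = cl fun n => (P n).φ a := fun a => rfl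
  have hΦinj : Function.Injective Φ := by
    rw [injective_iff_map_eq_zero]
    intro a ha
    by_contra hne
    rw [hΦ, cl_eq_zero] at ha
    have h1 := hU (hinj a hne)
    have h2 := (ha.and h1).exists
    obtain ⟨n, h3, h4⟩ := h2
    exact h4 h3
  have hder : ∀ j, ∃ δ : Derivation ℤ K K, ∀ x : ∀ n, κ n,
      δ (cl x) = cl fun n => (P n).δ j (x n) :=
    fun j => cl_der fun n => (P n).δ j
  choose δ hδ using hder
  have hcompat : ∀ j a, δ j (Φ a) = Φ (D j a) := by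
    intro j a
    rw [hΦ, hδ, hΦ]
    congr 1
    funext n
    exact (P n).compat j a
  have hcleq : ∀ x y : ∀ n, κ n, (∀ᶠ n in (U : Filter ℕ), x n = y n) → cl x = cl y := by
    intro x y h
    rw [← sub_eq_zero, ← map_sub, cl_eq_zero]
    filter_upwards [h] with n hn
    rw [Pi.sub_apply, hn, sub_self]
  have hnat : ∀ q : ℕ, (q : K) = cl fun n => ((q : ℕ) : κ n) := by
    intro q
    rw [← map_natCast cl]
    rfl
  let ψK : Fin t → ℕ → (V →₀ ℕ) → K := fun u k g => cl fun n => ψ n u k g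
  let MK : J → Fin t → Fin t → K := fun i u u' => cl fun n => M n i u u'
  let yK : Fin t → K := fun u => cl fun n => y n u
  have hst : ∀ u, Stokes W m f Φ (ψK u) := by
    intro u k g i hk hg hpos
    have h2 : ∀ a, Φ (coeff a f) * (a i : K) * ψK u (k + 1) (g + a) =
        cl fun n => (P n).φ (coeff a f) * (a i : κ n) * ψ n u (k + 1) (g + a) := by
      intro a
      rw [hΦ, hnat, ← map_mul, ← map_mul]
      rfl
    simp only [h2]
    rw [hnat, ← map_mul, ← map_sum, ← map_add]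
    rw [cl_eq_zero]
    filter_upwards [hgood] with n hn
    rw [Pi.add_apply, Finset.sum_apply]
    exact hn.1 u k g i hk hg hpos
  have hsupp : ∀ u k g, gdeg χ g ≠ c → ψK u k g = 0 := by
    intro u k g hg
    change cl _ = 0
    rw [cl_eq_zero]
    filter_upwards [hgood] with n hn
    exact hn.2.1 u k g hg
  have hflat : ∀ i u k g, IsForm W m k g → δ i (ψK u k g) =
      ∑ a ∈ f.support, Φ (D i (coeff a f)) * ψK u (k + 1) (g + a) + ∑ u', MK i u' u * ψK u' k g := by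
    intro i u k g hg
    have h2 : ∀ a, Φ (D i (coeff a f)) * ψK u (k + 1) (g + a) =
        cl fun n => (P n).φ (D i (coeff a f)) * ψ n u (k + 1) (g + a) := by
      intro a
      rw [hΦ, ← map_mul]
      rfl
    have h3 : ∀ u', MK i u' u * ψK u' k g = cl fun n => M n i u' u * ψ n u' k g := by
      intro u'
      rw [← map_mul]
      rfl
    simp only [h2, h3]
    rw [hδ, ← map_sum, ← map_sum, ← map_add]
    apply hcleq
    filter_upwards [hgood] with n hn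
    rw [Pi.add_apply, Finset.sum_apply, Finset.sum_apply]
    exact hn.2.2.1 i u k g hg
  have hind : LinearIndependent K (fun u => fun x : Forms W m => ψK u x.1.1 x.1.2) := by
    rw [Fintype.linearIndependent_iff]
    intro x hx
    have hlift : ∀ u, ∃ w : ∀ n, κ n, cl w = x u := fun u => cl_surj (x u)
    choose w hw using hlift
    have hev : ∀ᶠ n in (U : Filter ℕ), ∀ s ∈ {s : ℕ × (V →₀ ℕ) | s.1 ≤ L ∧
        ∑ v, W v * s.2 v = s.1 * m}, IsForm W m s.1 s.2 → ∑ u, w u n * ψ n u s.1 s.2 = 0 := by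
      rw [hZ.eventually_all]
      intro s _
      by_cases hs : IsForm W m s.1 s.2
      · have h1 := congrFun hx ⟨s, hs⟩
        rw [Finset.sum_apply] at h1
        simp only [Pi.smul_apply, smul_eq_mul, Pi.zero_apply] at h1
        have h2 : ∀ u, x u * ψK u s.1 s.2 = cl fun n => w u n * ψ n u s.1 s.2 := by
          intro u
          rw [← hw u, ← map_mul]
          rfl
        simp only [h2] at h1
        rw [← map_sum, cl_eq_zero] at h1
        filter_upwards [h1] with n hn _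
        rw [Finset.sum_apply] at hn
        exact hn
      · exact Eventually.of_forall fun n h => absurd h hs
    intro u
    rw [← hw u, cl_eq_zero]
    filter_upwards [hev, hgood] with n hn hgn
    have h3 := hgn.2.2.2.1 (fun u => w u n) (fun k g hg hk => hn (k, g) ⟨hk, hg.2.1⟩ hg)
    exact congrFun h3 u
  have hkill : ∀ k g, IsForm W m k g → k ≤ j₀ → ∑ u, yK u * ψK u k g = 0 := by
    intro k g hg hk
    have h3 : ∀ u, yK u * ψK u k g = cl fun n => y n u * ψ n u k g := by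
      intro u
      rw [← map_mul]
      rfl
    simp only [h3]
    rw [← map_sum, cl_eq_zero]
    filter_upwards [hgood] with n hn
    rw [Finset.sum_apply]
    exact hn.2.2.2.2.1 k g hg hk
  have hy : yK ≠ 0 := by
    intro h
    have h3 : ∑ u, yK u * ψK u z₀.1 z₀.2 = 0 := by
      rw [h]
      simp
    have h4 : ∀ u, yK u * ψK u z₀.1 z₀.2 = cl fun n => y n u * ψ n u z₀.1 z₀.2 := by
      intro u
      rw [← map_mul]
      rfl
    simp only [h4] at h3
    rw [← map_sum, cl_eq_zero] at h3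
    obtain ⟨n, h5, h6⟩ := (h3.and hgood).exists
    rw [Finset.sum_apply] at h5
    exact h6.2.2.2.2.2 h5
  exact mono2 W m f hf D χ c φE ε π 𝓑 hφE hcompE hsol hcase Φ δ hΦinj hcompat t ψK MK hst hsupp
    hflat hind j₀ yK hy hkill ht

end limit

end Pool.Agent.H19.Opp
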