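import Mathlib
import Pool.Agent.H19.Ord.Main
import Pool.Agent.H19.Opp.Lim
import Pool.Agent.H19.Opp.Hw

/-!
The generic points of large characteristic, and the passage to the closed points of a model.
-/

set_option autoImplicit false

namespace Pool.Agent.H19.Opp

universe u

open MvPolynomial Filter Pool.Agent.H19.Ord

section

variable {R : Type u} [CommRing R] [IsDomain R] [CharZero R] [Algebra.FiniteType ℤ R]
  {J : Type} (D : J → Derivation ℤ R R)
  {ι : Type} [Finite ι] (V : ι → Type) [∀ i, Fintype (V i)]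
  (W : ∀ i, V i → ℕ) (hW : ∀ i v, 0 < W i v) (m : ι → ℕ) (hm : ∀ i, 1 ≤ m i)
  (f : ∀ i, MvPolynomial (V i) R) (hf : ∀ i, ∀ a ∈ (f i).support, ∑ v, W i v * a v = m i)
  (G : ι → Type) [∀ i, AddCommGroup (G i)] (χ : ∀ i, V i → G i)
  (hχ : ∀ i, ∀ a ∈ (f i).support, gdeg (χ i) a = 0)
  (e : ℕ) (he : ∀ i (c : G i), e • c = 0)
  (b : ι → R) (hb0 : ∀ i, b i ≠ 0) (n₀ : ι → ℕ)
  (hb : ∀ i v, C (b i) * (X v : MvPolynomial (V i) R) ^ (n₀ i) ∈
    Ideal.span (Set.range fun j => pderiv j (f i)))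
  (hP : ∀ i, BigMonodromy (W i) (m i) (f i) D (χ i))

include hW hm hf hχ he hb0 hb hP in
/-- the filtrations are opposite at generic points of large characteristic -/
theorem core2 (c : R) (hc : c ≠ 0) :
    ∃ N : ℕ, ∀ p : ℕ, N ≤ p → p.Prime → p ≡ 1 [MOD e] →
      ∃ Q : Ideal R, Q.IsPrime ∧ (p : R) ∈ Q ∧ c ∉ Q ∧ ∃ P : Pt D, (∀ a, P.φ a = 0 ↔ a ∈ Q) ∧
        ∀ i j, 1 ≤ j → OppJ (W i) (m i) (f i) P.φ p j := by
  classical
  have := Fintype.ofFinite ι
  by_contra hcon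
  push Not at hcon
  have := countable_of_finiteType R
  obtain ⟨a, ha⟩ := exists_surjective_nat R
  let t : ℕ → R := fun j => if a j = 0 then 1 else a j
  have ht : ∀ j, t j ≠ 0 := by
    intro j
    simp only [t]
    split_ifs with h
    · exact one_ne_zero
    · exact h
  let cc : ℕ → R := fun n => c * (∏ i, b i) * ∏ j ∈ Finset.range (n + 1), t j
  have hcc : ∀ n, cc n ≠ 0 := fun n => mul_ne_zero (mul_ne_zero hc
    (Finset.prod_ne_zero_iff.2 fun i _ => hb0 i)) (Finset.prod_ne_zero_iff.2 fun j _ => ht j)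
  have hseq : ∀ n : ℕ, ∃ (p : ℕ) (Q : Ideal R) (i : ι) (P : Pt D), p.Prime ∧ p ≡ 1 [MOD e] ∧
      Q.IsPrime ∧ (p : R) ∈ Q ∧ cc n ∉ Q ∧ (∀ a, P.φ a = 0 ↔ a ∈ Q) ∧
      ∃ j, 1 ≤ j ∧ ¬ OppJ (W i) (m i) (f i) P.φ p j := by
    intro n
    obtain ⟨N, hN⟩ := good_primes (cc n) (hcc n)
    obtain ⟨p, hNp, hp, hpe, hbad⟩ := hcon N
    obtain ⟨Q, hQ, hpQ, hcQ, hgood⟩ := hN p hNp hp
    obtain ⟨P, hPQ⟩ := exists_pt D Q hQ p hpQ hgood
    obtain ⟨i, j, hj, hij⟩ := hbad Q hQ hpQ (fun h => hcQ (Ideal.mul_mem_right _ _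
      (Ideal.mul_mem_right _ _ h))) P hPQ
    exact ⟨p, Q, i, P, hp, hpe, hQ, hpQ, hcQ, hPQ, j, hj, hij⟩
  choose p Q i P hp hpe hQ hpQ hcQ hPt hbad using hseq
  obtain ⟨i₀, hi₀⟩ := Finite.exists_infinite_fiber i
  let σ : ℕ ↪o ℕ := Nat.orderEmbeddingOfSet (i ⁻¹' {i₀})
  have hσ : ∀ n, i (σ n) = i₀ := by
    intro n
    have h1 : σ n ∈ i ⁻¹' {i₀} := by
      rw [← Nat.orderEmbeddingOfSet_range (i ⁻¹' {i₀})]
      exact Set.mem_range_self n
    exact h1
  have hbQ : ∀ n, b i₀ ∉ Q n := by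
    intro n h
    apply hcQ n
    apply Ideal.mul_mem_right
    apply Ideal.mul_mem_left
    rw [← Finset.mul_prod_erase _ _ (Finset.mem_univ i₀)]
    exact Ideal.mul_mem_right _ _ h
  refine limit2 (W i₀) (hW i₀) (m i₀) (hm i₀) (f i₀) (hf i₀) D (χ i₀) (hχ i₀) e (he i₀) (b i₀)
    (n₀ i₀) (hb i₀) (hP i₀) (fun n => P (σ n)) (fun n => p (σ n)) (fun n => hp _) ?_
    (fun n => hpe _) ?_ ?_ ?_
  · intro n
    have h1 : ((p (σ n) : ℕ) : (P (σ n)).κ) = 0 := by
      have := (hPt (σ n) _).2 (hpQ (σ n))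
      rwa [map_natCast] at this
    have := Fact.mk (hp (σ n))
    exact (CharP.charP_iff_prime_eq_zero (hp (σ n))).2 h1
  · intro n
    rw [Ne, hPt]
    exact hbQ _
  · intro x hx
    obtain ⟨j, rfl⟩ := ha x
    filter_upwards [eventually_ge_atTop j] with n hn
    rw [Ne, hPt]
    intro h
    apply hcQ (σ n)
    apply Ideal.mul_mem_left
    have h1 : j ∈ Finset.range (σ n + 1) := by
      have : n ≤ σ n := σ.strictMono.le_apply
      simp only [Finset.mem_range]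
      omega
    rw [← Finset.mul_prod_erase _ _ h1]
    apply Ideal.mul_mem_right
    simp only [t, if_neg hx]
    exact h
  · intro n
    have h1 := hbad (σ n)
    rw [hσ n] at h1
    exact h1

end

section transfer

variable {V : Type} [Fintype V]

/-- the condition depends only on the kernel -/
theorem OppJ.of_ker {R κ κ' : Type u} [CommRing R] [Field κ] [Field κ'] {W : V → ℕ} {m : ℕ}
    {f : MvPolynomial V R} {φ : R →+* κ} {p j : ℕ} (h : OppJ W m f φ p j) (φ' : R →+* κ')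
    (hker : ∀ a, φ a = 0 ↔ φ' a = 0) : OppJ W m f φ' p j := by
  let Q := RingHom.ker φ
  have hQ' : ∀ a ∈ Q, φ' a = 0 := fun a ha => (hker a).1 ha
  let ψ : R ⧸ Q →+* κ := Ideal.Quotient.lift Q φ (fun a ha => ha)
  let ψ' : R ⧸ Q →+* κ' := Ideal.Quotient.lift Q φ' hQ'
  have hψ : Function.Injective ψ := by
    rw [injective_iff_map_eq_zero]
    intro a ha
    obtain ⟨a, rfl⟩ := Ideal.Quotient.mk_surjective a
    rw [Ideal.Quotient.lift_mk] at ha
    exact Ideal.Quotient.eq_zero_iff_mem.2 ha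
  have hψ' : Function.Injective ψ' := by
    rw [injective_iff_map_eq_zero]
    intro a ha
    obtain ⟨a, rfl⟩ := Ideal.Quotient.mk_surjective a
    rw [Ideal.Quotient.lift_mk] at ha
    exact Ideal.Quotient.eq_zero_iff_mem.2 ((hker a).2 ha)
  obtain ⟨Ω, _, a, b, hab⟩ := exists_comp ψ ψ' hψ hψ'
  have h1 := h.up a
  have h2 : a.comp φ = b.comp φ' := by
    ext x
    have := hab (Ideal.Quotient.mk Q x)
    rwa [Ideal.Quotient.lift_mk, Ideal.Quotient.lift_mk] at this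
  rw [h2] at h1
  exact h1.down b

/-- clearing of denominators -/
theorem clear {R κ : Type u} [CommRing R] [Field κ] (W : V → ℕ) (m : ℕ) (φ : R →+* κ)
    (hfrac : ∀ z : κ, ∃ a s : R, φ s ≠ 0 ∧ z * φ s = φ a) (F : MvPolynomial V R) (p j : ℕ)
    (v : (ℕ × (V →₀ ℕ)) →₀ κ)
    (hv : v ∈ forms κ W m {k | k ≤ j} ⊔ forms κ W m {k | p * j < k} ⊔ exact W m (map φ F)) :
    ∃ s : R, φ s ≠ 0 ∧ ∃ w ∈ forms R W m {k | k ≤ j} ⊔ forms R W m {k | p * j < k} ⊔ exact W m F,
      w.mapRange φ (map_zero φ) = φ s • v := by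
  classical
  let U := forms R W m {k | k ≤ j} ⊔ forms R W m {k | p * j < k} ⊔ exact W m F
  have hsm : ∀ (c : R) (w : (ℕ × (V →₀ ℕ)) →₀ R),
      (c • w).mapRange φ (map_zero φ) = φ c • w.mapRange φ (map_zero φ) := by
    intro c w
    ext x
    simp
  let N : Submodule κ ((ℕ × (V →₀ ℕ)) →₀ κ) :=
    { carrier := {v | ∃ s : R, φ s ≠ 0 ∧ ∃ w ∈ U, w.mapRange φ (map_zero φ) = φ s • v}
      add_mem' := by
        rintro x y ⟨s, hs, w, hw, h1⟩ ⟨s', hs', w', hw', h1'⟩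
        refine ⟨s * s', by rw [map_mul]; exact mul_ne_zero hs hs', s' • w + s • w',
          U.add_mem (U.smul_mem _ hw) (U.smul_mem _ hw'), ?_⟩
        rw [Finsupp.mapRange_add (map_add φ), hsm, hsm, h1, h1', map_mul, smul_add, smul_smul,
          smul_smul, mul_comm (φ s')]
      zero_mem' := ⟨1, by rw [map_one]; exact one_ne_zero, 0, U.zero_mem, by simp⟩
      smul_mem' := by
        rintro c x ⟨s, hs, w, hw, h1⟩
        obtain ⟨a, s', hs', ha⟩ := hfrac c
        refine ⟨s * s', by rw [map_mul]; exact mul_ne_zero hs hs', a • w, U.smul_mem _ hw, ?_⟩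
        rw [hsm, h1, ← ha, smul_smul, smul_smul, map_mul]
        congr 1
        ring }
  have hone : ∀ w ∈ U, w.mapRange φ (map_zero φ) ∈ N := fun w hw =>
    ⟨1, by rw [map_one]; exact one_ne_zero, w, hw, by rw [map_one, one_smul]⟩
  suffices h : forms κ W m {k | k ≤ j} ⊔ forms κ W m {k | p * j < k} ⊔ exact W m (map φ F) ≤ N from
    h hv
  refine sup_le (sup_le ?_ ?_) ?_
  · refine Submodule.span_le.2 ?_
    rintro _ ⟨x, hx, rfl⟩
    have h1 := hone (Finsupp.single x.1 1) (Submodule.mem_sup_left (Submodule.mem_sup_left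
      (Submodule.subset_span ⟨x, hx, rfl⟩)))
    rwa [Finsupp.mapRange_single, map_one] at h1
  · refine Submodule.span_le.2 ?_
    rintro _ ⟨x, hx, rfl⟩
    have h1 := hone (Finsupp.single x.1 1) (Submodule.mem_sup_left (Submodule.mem_sup_right
      (Submodule.subset_span ⟨x, hx, rfl⟩)))
    rwa [Finsupp.mapRange_single, map_one] at h1
  · refine Submodule.span_le.2 ?_
    rintro _ ⟨k, g, i, hk, hg, hpos, rfl⟩
    have h1 := hone _ (Submodule.mem_sup_right (Submodule.subset_span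
      ⟨k, g, i, hk, hg, hpos, rfl⟩ : _ ∈ exact W m F))
    rw [Finsupp.mapRange_add (map_add φ), Finsupp.mapRange_single, map_natCast,
      Finsupp.mapRange_finsetSum] at h1
    rw [sum_map_support φ F (fun a c => Finsupp.single (k + 1, g + a) (c * (a i : κ)))
      (fun a => by simp)]
    have h2 : ∀ a, (Finsupp.single (k + 1, g + a) (coeff a F * (a i : R))).mapRange φ (map_zero φ) =
        Finsupp.single (k + 1, g + a) (φ (coeff a F) * (a i : κ)) := by
      intro a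
      rw [Finsupp.mapRange_single, map_mul, map_natCast]
    simp only [h2] at h1
    exact h1

/-- **Specialization.** -/
theorem special' {R κ : Type u} [CommRing R] [Field κ] (W : V → ℕ)
    (m : ℕ) (hm : 1 ≤ m) (F : MvPolynomial V R) (hF : ∀ a ∈ F.support, ∑ v, W v * a v = m)
    (φ : R →+* κ) (hfrac : ∀ z : κ, ∃ a s : R, φ s ≠ 0 ∧ z * φ s = φ a) (p : ℕ)
    (h : ∀ j, 1 ≤ j → OppJ W m F φ p j) (hW : ∀ v, 0 < W v) (N : ℕ) :
    ∃ s : R, φ s ≠ 0 ∧ ∀ (κ' : Type u) [Field κ'] (θ : R →+* κ'), (∀ a, φ a = 0 → θ a = 0) →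
      θ s ≠ 0 → JacFrom W (map θ F) N → Opposite W m (map θ F) p := by
  classical
  let L := N + ∑ v, W v + 1
  have hZ := finite_forms W hW m L
  have hmem : ∀ (j : ℕ) (x : ℕ × (V →₀ ℕ)), ∃ s : R, φ s ≠ 0 ∧ (1 ≤ j → IsForm W m x.1 x.2 →
      ∃ w ∈ forms R W m {k | k ≤ j} ⊔ forms R W m {k | p * j < k} ⊔ exact W m F,
      w.mapRange φ (map_zero φ) = φ s • Finsupp.single x (1 : κ)) := by
    intro j x
    by_cases hj : 1 ≤ j ∧ IsForm W m x.1 x.2
    · have h1 := mem_of_oppJ W m (map φ F) p j (by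
        intro ψ hψ
        rw [stokes_map] at hψ
        exact h j hj.1 ψ hψ) ⟨x, hj.2⟩
      obtain ⟨s, hs, w, hw, h2⟩ := clear W m φ hfrac F p j _ h1
      exact ⟨s, hs, fun _ _ => ⟨w, hw, h2⟩⟩
    · exact ⟨1, by rw [map_one]; exact one_ne_zero, fun h1 h2 => absurd ⟨h1, h2⟩ hj⟩
  choose s hs hs' using hmem
  refine ⟨∏ j ∈ Finset.range (L + 1), ∏ x ∈ hZ.toFinset, s j x, ?_, ?_⟩
  · rw [map_prod]
    refine Finset.prod_ne_zero_iff.2 fun j _ => ?_
    rw [map_prod]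
    exact Finset.prod_ne_zero_iff.2 fun x _ => hs j x
  intro κ' _ θ hθ hsθ hJ
  rw [map_prod, Finset.prod_ne_zero_iff] at hsθ
  have hFθ : ∀ a ∈ (map θ F).support, ∑ v, W v * a v = m :=
    fun a ha => hF a (support_map_subset _ _ ha)
  apply opposite_of_oppJ
  intro j hj ψ hψ h1 h2 k g hg
  refine reduction W m hm (map θ F) hFθ (RingHom.id κ') N
    (by rwa [MvPolynomial.map_id]) ψ hψ ?_ k g hg.1 hg.2.1 hg.2.2
  intro k g hk hkL hgw hpos
  by_cases hjL : L < j
  · exact h1 k g ⟨hk, hgw, hpos⟩ (by omega)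
  have hform : IsForm W m k g := ⟨hk, hgw, hpos⟩
  obtain ⟨w, hw, hw'⟩ := hs' j (k, g) hj hform
  have h3 := hsθ j (by simp only [Finset.mem_range]; omega)
  rw [map_prod, Finset.prod_ne_zero_iff] at h3
  have h4 := h3 (k, g) (by
    rw [Set.Finite.mem_toFinset]
    exact ⟨hkL, hgw⟩)
  have h5 : w.mapRange θ (map_zero θ) = θ (s j (k, g)) • Finsupp.single (k, g) (1 : κ') := by
    ext x
    have h6 := congrArg (fun v => v x) hw'
    simp only [Finsupp.mapRange_apply, Finsupp.smul_apply, smul_eq_mul] at h6 ⊢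
    have h7 : φ (w x - s j (k, g) * Finsupp.single (k, g) (1 : R) x) = 0 := by
      rw [map_sub, h6, map_mul]
      by_cases hx : x = (k, g)
      · rw [hx, Finsupp.single_eq_same, Finsupp.single_eq_same, map_one, sub_self]
      · rw [Finsupp.single_eq_of_ne hx, Finsupp.single_eq_of_ne hx, map_zero, sub_self]
    have h8 := hθ _ h7
    rw [map_sub, map_mul, sub_eq_zero] at h8
    rw [h8]
    by_cases hx : x = (k, g)
    · rw [hx, Finsupp.single_eq_same, Finsupp.single_eq_same, map_one]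
    · rw [Finsupp.single_eq_of_ne hx, Finsupp.single_eq_of_ne hx, map_zero]
  have h6 := kill W m (map θ F) ψ hψ p j h1 h2 (map_mem W m θ F p j w hw)
  rw [LinearMap.mem_ker, h5, map_smul, lin_single, one_mul, smul_eq_mul] at h6
  exact (mul_eq_zero.1 h6).resolve_left h4

end transfer

/-- **The filtrations are opposite at a dense set of closed points.** -/
theorem final2 {k : Type u} [Field k] [CharZero k] [IsAlgClosed k]
    {ι : Type} [Finite ι] (V : ι → Type) [∀ i, Fintype (V i)] [∀ i, DecidableEq (V i)]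
    (W : ∀ i, V i → ℕ) (hW : ∀ i v, 0 < W i v) (m : ι → ℕ) (hm : ∀ i, 1 ≤ m i)
    (f : ∀ i, MvPolynomial (V i) k) (hf : ∀ i, ∀ a ∈ (f i).support, ∑ v, W i v * a v = m i)
    (hs : ∀ i, ∀ x : V i → k, (∀ v, eval x (pderiv v (f i)) = 0) → x = 0)
    (G : ι → Type) [∀ i, AddCommGroup (G i)] (χ : ∀ i, V i → G i)
    (hχ : ∀ i, ∀ a ∈ (f i).support, gdeg (χ i) a = 0)
    (e : ℕ) (he : ∀ i (c : G i), e • c = 0)
    (B : Subalgebra ℤ k) (hB : B.FG) {J : Type} (D : J → Derivation ℤ B B)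
    (f₀ : ∀ i, MvPolynomial (V i) B) (hf₀ : ∀ i, map (algebraMap B k) (f₀ i) = f i)
    (hP : ∀ i, BigMonodromy (W i) (m i) (f₀ i) D (χ i))
    (A : Subalgebra ℤ k) (hA : A.FG) (F : ∀ i, MvPolynomial (V i) A)
    (hF : ∀ i, map (algebraMap A k) (F i) = f i) (c : A) (hc : c ≠ 0) :
    ∃ N : ℕ, ∀ p : ℕ, N ≤ p → p.Prime → p ≡ 1 [MOD e] →
      ∃ M : Ideal A, M.IsMaximal ∧ (p : A) ∈ M ∧ c ∉ M ∧
        ∀ i, Opposite (W i) (m i) (map (Ideal.Quotient.mk M) (F i)) p ∧
          (hasseWitt (W i) (m i) p (map (Ideal.Quotient.mk M) (F i))).det ≠ 0 := by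
  classical
  have := Fintype.ofFinite ι
  have hBi : Function.Injective (algebraMap B k) := Subtype.val_injective
  have hAi : Function.Injective (algebraMap A k) := Subtype.val_injective
  have hBft : Algebra.FiniteType ℤ B := (Subalgebra.fg_iff_finiteType B).1 hB
  have hsupp : ∀ i, (f₀ i).support = (f i).support := fun i => by
    rw [← hf₀ i, support_map_of_injective _ hBi]
  have hsuppA : ∀ i, (F i).support = (f i).support := fun i => by
    rw [← hF i, support_map_of_injective _ hAi]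
  have hjac : ∀ i, ∃ b : B, b ≠ 0 ∧ ∃ n : ℕ, ∀ v, C b * (X v : MvPolynomial (V i) B) ^ n ∈
      Ideal.span (Set.range fun j => pderiv j (f₀ i)) := fun i =>
    jac_power (algebraMap B k) hBi (f₀ i) (by rw [hf₀ i]; exact hs i)
  choose b hb0 n₀ hb using hjac
  have hjacA : ∀ i, ∃ b : A, b ≠ 0 ∧ ∃ n : ℕ, ∀ v, C b * (X v : MvPolynomial (V i) A) ^ n ∈
      Ideal.span (Set.range fun j => pderiv j (F i)) := fun i =>
    jac_power (algebraMap A k) hAi (F i) (by rw [hF i]; exact hs i)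
  choose bA hbA0 nA hbA using hjacA
  -- the ring generated by both
  let A₁ : Subalgebra ℤ k := B ⊔ A
  have hA₁ : A₁.FG := hB.sup hA
  have hA₁ft : Algebra.FiniteType ℤ A₁ := (Subalgebra.fg_iff_finiteType A₁).1 hA₁
  let g : B →+* A₁ := (Subalgebra.inclusion (le_sup_left : B ≤ A₁)).toRingHom
  let h : A →+* A₁ := (Subalgebra.inclusion (le_sup_right : A ≤ A₁)).toRingHom
  have hgi : Function.Injective g := Subalgebra.inclusion_injective _
  have hhi : Function.Injective h := Subalgebra.inclusion_injective _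
  have hA₁i : Function.Injective (algebraMap A₁ k) := Subtype.val_injective
  have hgt : (algebraMap A₁ k).comp g = algebraMap B k := RingHom.ext fun _ => rfl
  have hht : (algebraMap A₁ k).comp h = algebraMap A k := RingHom.ext fun _ => rfl
  have hgft : g.FiniteType := by
    have h1 : (g.comp (algebraMap ℤ B)).FiniteType := by
      have : (algebraMap ℤ A₁).FiniteType := RingHom.finiteType_algebraMap.mpr hA₁ft
      rwa [show algebraMap ℤ A₁ = g.comp (algebraMap ℤ B) from RingHom.ext_int _ _] at this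
    exact RingHom.FiniteType.of_comp_finiteType h1
  have hBN : IsNoetherianRing B := Algebra.FiniteType.isNoetherianRing ℤ B
  have hc' : c * ∏ i, bA i ≠ 0 := mul_ne_zero hc (Finset.prod_ne_zero_iff.2 fun i _ => hbA0 i)
  obtain ⟨c₀, hc₀, hlift⟩ := Pool.Agent.Y162.HW.chev g hgi hgft (h (c * ∏ i, bA i))
    (by rwa [Ne, map_eq_zero_iff h hhi])
  obtain ⟨N, hN⟩ := core2 D V W hW m hm f₀ (fun i a ha => hf i a (hsupp i ▸ ha)) G χ
    (fun i a ha => hχ i a (hsupp i ▸ ha)) e he b hb0 n₀ hb hP c₀ hc₀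
  refine ⟨N, fun p hNp hp hpe => ?_⟩
  obtain ⟨Q, hQ, hpQ, hcQ, P, hPQ, hopp⟩ := hN p hNp hp hpe
  obtain ⟨Q₁, hQ₁, hQQ, hcQ₁⟩ := hlift Q hQ hcQ
  obtain ⟨κ₁, _, φ₁, hφ₁, -⟩ := exists_residue Q₁ hQ₁
  have hQ₂ : (Q₁.comap h).IsPrime := hQ₁.comap h
  obtain ⟨κ₂, _, φ₂, hφ₂, hfrac⟩ := exists_residue (Q₁.comap h) hQ₂
  have hopp₂ : ∀ i j, 1 ≤ j → OppJ (W i) (m i) (F i) φ₂ p j := by
    intro i j hj
    have h1 := (hopp i j hj).of_ker (φ₁.comp g) (by
      intro a
      rw [hPQ, RingHom.comp_apply, hφ₁, ← hQQ, Ideal.mem_comap])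
    have h2 : map (φ₁.comp g) (f₀ i) = map (φ₁.comp h) (F i) := by
      have h3 : map g (f₀ i) = map h (F i) := by
        apply map_injective (algebraMap A₁ k) hA₁i
        rw [MvPolynomial.map_map, MvPolynomial.map_map, hgt, hht, hf₀ i, hF i]
      rw [← MvPolynomial.map_map, h3, MvPolynomial.map_map]
    refine (h1.congr h2).of_ker φ₂ ?_
    intro a
    rw [RingHom.comp_apply, hφ₁, hφ₂, Ideal.mem_comap]
  have hAft : Algebra.FiniteType ℤ A := (Subalgebra.fg_iff_finiteType A).1 hA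
  have hJ : IsJacobsonRing A := by
    have := Pool.Agent.Y162.HW.jac_int
    exact isJacobsonRing_of_finiteType (A := ℤ)
  have hjac : (Q₁.comap h).jacobson = Q₁.comap h := isJacobsonRing_iff_prime_eq.mp hJ _ hQ₂
  -- all quotients by maximal ideals have the same universe
  have hspec : ∀ i, ∃ s : A, s ∉ Q₁.comap h ∧ ∀ (κ' : Type u) [Field κ'] (θ : A →+* κ'),
      (∀ a ∈ Q₁.comap h, θ a = 0) → θ s ≠ 0 →
      JacFrom (W i) (map θ (F i)) ((∑ v, W i v) * nA i + 1) → Opposite (W i) (m i) (map θ (F i)) p := by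
    intro i
    obtain ⟨s, hs1, hs2⟩ := special' (W i) (m i) (hm i) (F i)
      (fun a ha => hf i a (hsuppA i ▸ ha)) φ₂ hfrac p (hopp₂ i) (hW i) ((∑ v, W i v) * nA i + 1)
    refine ⟨s, fun h1 => hs1 ((hφ₂ s).2 h1), fun κ' _ θ h1 h2 h3 => hs2 κ' θ ?_ h2 h3⟩
    intro a ha
    exact h1 a ((hφ₂ a).1 ha)
  choose s hs1 hs2 using hspec
  have hprod : (c * ∏ i, bA i) * ∏ i, s i ∉ Q₁.comap h := by
    intro hm
    rcases hQ₂.mem_or_mem hm with h1 | h1
    · exact hcQ₁ h1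
    · rw [hQ₂.prod_mem_iff] at h1
      obtain ⟨i, _, hi⟩ := h1
      exact hs1 i hi
  rw [← hjac, Ideal.jacobson, Submodule.mem_sInf] at hprod
  push Not at hprod
  obtain ⟨M, ⟨hM0M, hM⟩, hMa⟩ := hprod
  have hpM : (p : A) ∈ M := by
    apply hM0M
    rw [Ideal.mem_comap, map_natCast]
    have h1 : (p : B) ∈ Q₁.comap g := by rw [hQQ]; exact hpQ
    rwa [Ideal.mem_comap, map_natCast] at h1
  refine ⟨M, hM, hpM, fun h1 => hMa (Ideal.mul_mem_right _ M (Ideal.mul_mem_right _ M h1)),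
    fun i => ?_⟩
  let _ : Field (A ⧸ M) := Ideal.Quotient.field M
  have hJM := jac_map (Ideal.Quotient.mk M) (F i) (bA i) (by
    intro h1
    apply hMa
    apply Ideal.mul_mem_right
    apply Ideal.mul_mem_left
    rw [← Finset.mul_prod_erase _ _ (Finset.mem_univ i)]
    exact Ideal.mul_mem_right _ _ (Ideal.Quotient.eq_zero_iff_mem.1 h1)) (nA i) (hbA i) (W i)
  have hO : Opposite (W i) (m i) (map (Ideal.Quotient.mk M) (F i)) p := by
    refine hs2 i (A ⧸ M) (Ideal.Quotient.mk M) ?_ ?_ hJM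
    · intro a ha
      exact Ideal.Quotient.eq_zero_iff_mem.2 (hM0M ha)
    · intro h1
      apply hMa
      apply Ideal.mul_mem_left
      rw [← Finset.mul_prod_erase _ _ (Finset.mem_univ i)]
      exact Ideal.mul_mem_right _ _ (Ideal.Quotient.eq_zero_iff_mem.1 h1)
  refine ⟨hO, ?_⟩
  have hchar : CharP (A ⧸ M) p := by
    have := Fact.mk hp
    refine (CharP.charP_iff_prime_eq_zero hp).2 ?_
    rw [← map_natCast (Ideal.Quotient.mk M)]
    exact Ideal.Quotient.eq_zero_iff_mem.2 hpM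
  exact det_ne_zero (W i) (hW i) (m i) (hm i) (map (Ideal.Quotient.mk M) (F i))
    (fun a ha => hf i a (hsuppA i ▸ support_map_subset _ _ ha)) _ hJM p hp hO

end Pool.Agent.H19.Opp
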